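import Pool.Agent.Q321.GE.Gam
import Pool.Agent.Y815.GI.Red

/-!
# The linear space of a graph

Points are triples of natural numbers: `(0, 0, 0)`, `(k, u, u)` for every vertex `u` and
`k = 1, ..., 5`, and `(6, u, v)` for every ordered pair of adjacent vertices. The lines with more
than two points are given by the lists `B1 u`, `B2 u`, and `B3 u v` for adjacent `u < v`.
-/

set_option autoImplicit false

namespace Pool.Agent.Q321.GE

open Pool.Agent.NPC Pool.Agent.NPC.R671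
open Pool.Agent.Y815.GI (ent length_adjMatrix ent_adjMatrix valid valid_iff poly_ent poly_valid
  poly_range_len)

/-- points -/
abbrev Pn : Type := ℕ × ℕ × ℕ

/-- the order of the points -/
def ltB (p q : Pn) : Bool :=
  decide (p.1 < q.1) || (decide (p.1 = q.1) && (decide (p.2.1 < q.2.1) ||
    (decide (p.2.1 = q.2.1) && decide (p.2.2 < q.2.2))))

/-- the first line of a vertex -/
def B1 (u : ℕ) : List Pn := [(1, u, u), (2, u, u), (3, u, u)]

/-- the second line of a vertex -/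
def B2 (u : ℕ) : List Pn := [(1, u, u), (4, u, u), (5, u, u)]

/-- the line of an edge -/
def B3 (u v : ℕ) : List Pn := [(1, u, u), (1, v, v), (6, u, v), (6, v, u)]

/-- the points -/
def pts (M : List (List Bool)) : List Pn :=
  [((0, 0, 0) : Pn)] ++
  ((List.range 5 ×ˢ List.range M.length).map (fun p => ((p.1 + 1, p.2, p.2) : Pn)) ++
  ((List.range M.length ×ˢ List.range M.length).filter (fun p => ent M p.1 p.2)).map
    (fun p => ((6, p.1, p.2) : Pn)))

/-- the lines with at least three points -/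
def bigs (M : List (List Bool)) : List (List Pn) :=
  (List.range M.length).map (fun u => B1 u) ++
  ((List.range M.length).map (fun u => B2 u) ++
  ((List.range M.length ×ˢ List.range M.length).filter
    (fun p => decide (p.1 < p.2) && ent M p.1 p.2)).map (fun p => B3 p.1 p.2))

/-- covered pairs -/
def cov (M : List (List Bool)) (p q : Pn) : Bool :=
  (bigs M).any (fun b => decide (p ∈ b) && decide (q ∈ b))

/-- the lines with two points -/
def smalls (M : List (List Bool)) : List (List Pn) :=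
  ((pts M ×ˢ pts M).filter (fun x => ltB x.1 x.2 && !(cov M x.1 x.2))).map
    (fun x => [x.1, x.2])

/-- the lines -/
def lines (M : List (List Bool)) : List (List Pn) := bigs M ++ smalls M

/-- adjacency -/
def A (M : List (List Bool)) (i j : ℕ) : Prop := i < M.length ∧ j < M.length ∧ ent M i j = true

theorem mem_pts {M : List (List Bool)} {z : Pn} : z ∈ pts M ↔ z = (0, 0, 0) ∨
    (∃ k u, k < 5 ∧ u < M.length ∧ z = (k + 1, u, u)) ∨ ∃ u v, A M u v ∧ z = (6, u, v) := by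
  simp only [pts, List.mem_append, List.mem_singleton, List.mem_map, List.mem_filter,
    List.mem_product, List.mem_range, Prod.exists, A]
  constructor
  · rintro (h | ⟨k, u, ⟨h1, h2⟩, h3⟩ | ⟨u, v, ⟨⟨h1, h2⟩, h3⟩, h4⟩)
    · exact Or.inl h
    · exact Or.inr (Or.inl ⟨k, u, h1, h2, h3.symm⟩)
    · exact Or.inr (Or.inr ⟨u, v, ⟨h1, h2, h3⟩, h4.symm⟩)
  · rintro (h | ⟨k, u, h1, h2, h3⟩ | ⟨u, v, ⟨h1, h2, h3⟩, h4⟩)
    · exact Or.inl h
    · exact Or.inr (Or.inl ⟨k, u, ⟨h1, h2⟩, h3.symm⟩)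
    · exact Or.inr (Or.inr ⟨u, v, ⟨⟨h1, h2⟩, h3⟩, h4.symm⟩)

theorem mem_bigs {M : List (List Bool)} {l : List Pn} : l ∈ bigs M ↔
    (∃ u, u < M.length ∧ l = B1 u) ∨ (∃ u, u < M.length ∧ l = B2 u) ∨
      ∃ u v, u < v ∧ A M u v ∧ l = B3 u v := by
  simp only [bigs, List.mem_append, List.mem_map, List.mem_filter,
    List.mem_product, List.mem_range, Prod.exists, A, Bool.and_eq_true, decide_eq_true_eq]
  constructor
  · rintro (⟨u, h, rfl⟩ | ⟨u, h, rfl⟩ | ⟨u, v, ⟨⟨h1, h2⟩, h3, h4⟩, rfl⟩)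
    · exact Or.inl ⟨u, h, rfl⟩
    · exact Or.inr (Or.inl ⟨u, h, rfl⟩)
    · exact Or.inr (Or.inr ⟨u, v, h3, ⟨h1, h2, h4⟩, rfl⟩)
  · rintro (⟨u, h, rfl⟩ | ⟨u, h, rfl⟩ | ⟨u, v, h3, ⟨h1, h2, h4⟩, rfl⟩)
    · exact Or.inl ⟨u, h, rfl⟩
    · exact Or.inr (Or.inl ⟨u, h, rfl⟩)
    · exact Or.inr (Or.inr ⟨u, v, ⟨⟨h1, h2⟩, h3, h4⟩, rfl⟩)

theorem cov_iff {M : List (List Bool)} {p q : Pn} :
    cov M p q = true ↔ ∃ b ∈ bigs M, p ∈ b ∧ q ∈ b := by
  simp [cov]

theorem mem_smalls {M : List (List Bool)} {l : List Pn} : l ∈ smalls M ↔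
    ∃ p q, p ∈ pts M ∧ q ∈ pts M ∧ ltB p q = true ∧ (¬ ∃ b ∈ bigs M, p ∈ b ∧ q ∈ b) ∧
      l = [p, q] := by
  rw [smalls, List.mem_map]
  constructor
  · rintro ⟨⟨p, q⟩, h1, h5⟩
    rw [List.mem_filter, List.mem_product, Bool.and_eq_true, Bool.not_eq_true'] at h1
    obtain ⟨⟨h1, h2⟩, h3, h4⟩ := h1
    refine ⟨p, q, h1, h2, h3, fun h => ?_, h5.symm⟩
    rw [← cov_iff] at h
    simp only at h4
    rw [h4] at h
    exact absurd h (by simp)
  · rintro ⟨p, q, h1, h2, h3, h4, h5⟩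
    rw [← cov_iff] at h4
    refine ⟨(p, q), ?_, h5.symm⟩
    rw [List.mem_filter, List.mem_product, Bool.and_eq_true, Bool.not_eq_true']
    exact ⟨⟨h1, h2⟩, h3, by simpa using h4⟩

theorem lt_or {p q : Pn} (h : p ≠ q) : ltB p q = true ∨ ltB q p = true := by
  obtain ⟨a, b, c⟩ := p
  obtain ⟨a', b', c'⟩ := q
  simp only [ne_eq, Prod.mk.injEq] at h
  simp only [ltB, Bool.or_eq_true, Bool.and_eq_true, decide_eq_true_eq]
  omega

theorem lt_asymm' {p q : Pn} (h : ltB p q = true) (h' : ltB q p = true) : False := by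
  obtain ⟨a, b, c⟩ := p
  obtain ⟨a', b', c'⟩ := q
  simp only [ltB, Bool.or_eq_true, Bool.and_eq_true, decide_eq_true_eq] at h h'
  omega

theorem lt_ne {p q : Pn} (h : ltB p q = true) : p ≠ q := by
  rintro rfl
  exact lt_asymm' h h

/-- the line of a point which is not a vertex -/
def ln (z : Pn) : List Pn :=
  if z.1 ≤ 3 then B1 z.2.1 else if z.1 ≤ 5 then B2 z.2.1 else
    B3 (min z.2.1 z.2.2) (max z.2.1 z.2.2)

theorem eq_ln {M : List (List Bool)} {l : List Pn} (hl : l ∈ bigs M) {z : Pn} (hz : z ∈ l)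
    (h2 : 2 ≤ z.1) : l = ln z := by
  rw [mem_bigs] at hl
  rcases hl with ⟨u, hu, rfl⟩ | ⟨u, hu, rfl⟩ | ⟨u, v, huv, hA, rfl⟩
  · simp only [B1, List.mem_cons, List.not_mem_nil, or_false] at hz
    rcases hz with rfl | rfl | rfl <;> simp_all [ln]
  · simp only [B2, List.mem_cons, List.not_mem_nil, or_false] at hz
    rcases hz with rfl | rfl | rfl <;> simp_all [ln]
  · simp only [B3, List.mem_cons, List.not_mem_nil, or_false] at hz
    rcases hz with rfl | rfl | rfl | rfl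
    · simp at h2
    · simp at h2
    · simp [ln, min_eq_left huv.le, max_eq_right huv.le]
    · simp [ln, min_eq_right huv.le, max_eq_left huv.le]

theorem big_pos {M : List (List Bool)} {l : List Pn} (hl : l ∈ bigs M) {z : Pn} (hz : z ∈ l) :
    1 ≤ z.1 := by
  rw [mem_bigs] at hl
  rcases hl with ⟨u, hu, rfl⟩ | ⟨u, hu, rfl⟩ | ⟨u, v, huv, hA, rfl⟩
  · simp only [B1, List.mem_cons, List.not_mem_nil, or_false] at hz
    rcases hz with rfl | rfl | rfl <;> simp
  · simp only [B2, List.mem_cons, List.not_mem_nil, or_false] at hz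
    rcases hz with rfl | rfl | rfl <;> simp
  · simp only [B3, List.mem_cons, List.not_mem_nil, or_false] at hz
    rcases hz with rfl | rfl | rfl | rfl <;> simp

theorem big_one {M : List (List Bool)} {l : List Pn} (hl : l ∈ bigs M) {p q : Pn} (hp : p ∈ l)
    (hq : q ∈ l) (hpq : p ≠ q) (hp1 : p.1 = 1) (hq1 : q.1 = 1) :
    l = B3 (min p.2.1 q.2.1) (max p.2.1 q.2.1) := by
  rw [mem_bigs] at hl
  rcases hl with ⟨u, hu, rfl⟩ | ⟨u, hu, rfl⟩ | ⟨u, v, huv, hA, rfl⟩
  · simp only [B1, List.mem_cons, List.not_mem_nil, or_false] at hp hq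
    rcases hp with rfl | rfl | rfl <;> rcases hq with rfl | rfl | rfl <;> simp_all
  · simp only [B2, List.mem_cons, List.not_mem_nil, or_false] at hp hq
    rcases hp with rfl | rfl | rfl <;> rcases hq with rfl | rfl | rfl <;> simp_all
  · simp only [B3, List.mem_cons, List.not_mem_nil, or_false] at hp hq
    rcases hp with rfl | rfl | rfl | rfl <;> rcases hq with rfl | rfl | rfl | rfl <;>
      first
      | exact absurd rfl hpq
      | (exfalso; simp at hp1; done)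
      | (exfalso; simp at hq1; done)
      | (simp [min_eq_left huv.le, max_eq_right huv.le]; done)
      | (simp [min_eq_right huv.le, max_eq_left huv.le]; done)

theorem big_unique {M : List (List Bool)} {l m : List Pn} (hl : l ∈ bigs M) (hm : m ∈ bigs M)
    {p q : Pn} (hpq : p ≠ q) (h1 : p ∈ l) (h2 : q ∈ l) (h3 : p ∈ m) (h4 : q ∈ m) : l = m := by
  by_cases hp : 2 ≤ p.1
  · rw [eq_ln hl h1 hp, eq_ln hm h3 hp]
  · by_cases hq : 2 ≤ q.1
    · rw [eq_ln hl h2 hq, eq_ln hm h4 hq]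
    · have hp1 : p.1 = 1 := by have := big_pos hl h1; omega
      have hq1 : q.1 = 1 := by have := big_pos hl h2; omega
      rw [big_one hl h1 h2 hpq hp1 hq1, big_one hm h3 h4 hpq hp1 hq1]

theorem big_pts {M : List (List Bool)} (hs : ∀ i j, A M i j → A M j i) {l : List Pn}
    (hl : l ∈ bigs M) {z : Pn} (hz : z ∈ l) : z ∈ pts M := by
  rw [mem_pts]
  rw [mem_bigs] at hl
  rcases hl with ⟨u, hu, rfl⟩ | ⟨u, hu, rfl⟩ | ⟨u, v, huv, hA, rfl⟩
  · simp only [B1, List.mem_cons, List.not_mem_nil, or_false] at hz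
    rcases hz with rfl | rfl | rfl
    · exact Or.inr (Or.inl ⟨0, u, by omega, hu, rfl⟩)
    · exact Or.inr (Or.inl ⟨1, u, by omega, hu, rfl⟩)
    · exact Or.inr (Or.inl ⟨2, u, by omega, hu, rfl⟩)
  · simp only [B2, List.mem_cons, List.not_mem_nil, or_false] at hz
    rcases hz with rfl | rfl | rfl
    · exact Or.inr (Or.inl ⟨0, u, by omega, hu, rfl⟩)
    · exact Or.inr (Or.inl ⟨3, u, by omega, hu, rfl⟩)
    · exact Or.inr (Or.inl ⟨4, u, by omega, hu, rfl⟩)
  · simp only [B3, List.mem_cons, List.not_mem_nil, or_false] at hz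
    rcases hz with rfl | rfl | rfl | rfl
    · exact Or.inr (Or.inl ⟨0, u, by omega, hA.1, rfl⟩)
    · exact Or.inr (Or.inl ⟨0, v, by omega, hA.2.1, rfl⟩)
    · exact Or.inr (Or.inr ⟨u, v, hA, rfl⟩)
    · exact Or.inr (Or.inr ⟨v, u, hs _ _ hA, rfl⟩)

theorem mem_small_iff {p q z : Pn} : z ∈ [p, q] ↔ z = p ∨ z = q := by simp

/-! ### The linear space -/

/-- incidence -/
def Inc (M : List (List Bool)) (p : {z // z ∈ pts M}) (l : {l // l ∈ lines M}) : Prop := p.1 ∈ l.1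

theorem line_unique {M : List (List Bool)} {l m : List Pn} (hl : l ∈ lines M) (hm : m ∈ lines M)
    {p q : Pn} (hpq : p ≠ q) (h1 : p ∈ l) (h2 : q ∈ l) (h3 : p ∈ m) (h4 : q ∈ m) : l = m := by
  have key : ∀ {l m : List Pn}, l ∈ bigs M → m ∈ smalls M → p ∈ l → q ∈ l → p ∈ m → q ∈ m →
      False := by
    intro l m hl hm h1 h2 h3 h4
    rw [mem_smalls] at hm
    obtain ⟨a, b, _, _, _, hn, rfl⟩ := hm
    rw [mem_small_iff] at h3 h4
    apply hn
    refine ⟨l, hl, ?_⟩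
    rcases h3 with rfl | rfl <;> rcases h4 with rfl | rfl
    · exact absurd rfl hpq
    · exact ⟨h1, h2⟩
    · exact ⟨h2, h1⟩
    · exact absurd rfl hpq
  rw [lines, List.mem_append] at hl hm
  rcases hl with hl | hl <;> rcases hm with hm | hm
  · exact big_unique hl hm hpq h1 h2 h3 h4
  · exact (key hl hm h1 h2 h3 h4).elim
  · exact (key hm hl h3 h4 h1 h2).elim
  · rw [mem_smalls] at hl hm
    obtain ⟨a, b, _, _, hab, _, rfl⟩ := hl
    obtain ⟨c, d, _, _, hcd, _, rfl⟩ := hm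
    rw [mem_small_iff] at h1 h2 h3 h4
    rcases h1 with h1 | h1 <;> rcases h2 with h2 | h2 <;>
      rcases h3 with h3 | h3 <;> rcases h4 with h4 | h4 <;>
      first
      | exact absurd (h1.trans h2.symm) hpq
      | exact absurd (h3.trans h4.symm) hpq
      | (rw [← h1, ← h2, ← h3, ← h4]; done)
      | (rw [← h1, ← h2] at hab; rw [← h3, ← h4] at hcd; exact (lt_asymm' hab hcd).elim)

theorem line_ex {M : List (List Bool)} {p q : Pn} (hp : p ∈ pts M) (hq : q ∈ pts M)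
    (hpq : p ≠ q) : ∃ l ∈ lines M, p ∈ l ∧ q ∈ l := by
  by_cases h : ∃ b ∈ bigs M, p ∈ b ∧ q ∈ b
  · obtain ⟨b, hb, h1, h2⟩ := h
    exact ⟨b, List.mem_append_left _ hb, h1, h2⟩
  · rcases lt_or hpq with h1 | h1
    · exact ⟨[p, q], List.mem_append_right _ (mem_smalls.2 ⟨p, q, hp, hq, h1, h, rfl⟩), by simp,
        by simp⟩
    · exact ⟨[q, p], List.mem_append_right _ (mem_smalls.2 ⟨q, p, hq, hp, h1,
        fun ⟨b, hb, h2, h3⟩ => h ⟨b, hb, h3, h2⟩, rfl⟩), by simp, by simp⟩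

theorem lin (M : List (List Bool)) : Lin (Inc M) where
  ex p q hpq := by
    obtain ⟨l, hl, h1, h2⟩ := line_ex p.2 q.2 fun h => hpq (Subtype.ext h)
    exact ⟨⟨l, hl⟩, h1, h2⟩
  un p q l m hpq h1 h2 h3 h4 :=
    Subtype.ext (line_unique l.2 m.2 (fun h => hpq (Subtype.ext h)) h1 h2 h3 h4)

/-- every big line has three points -/
theorem big_three {M : List (List Bool)} {l : List Pn} (hl : l ∈ bigs M) :
    ∃ p q r, p ≠ q ∧ p ≠ r ∧ q ≠ r ∧ p ∈ l ∧ q ∈ l ∧ r ∈ l := by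
  rw [mem_bigs] at hl
  rcases hl with ⟨u, hu, rfl⟩ | ⟨u, hu, rfl⟩ | ⟨u, v, huv, hA, rfl⟩
  · exact ⟨(1, u, u), (2, u, u), (3, u, u), by simp, by simp, by simp, by simp [B1], by simp [B1],
      by simp [B1]⟩
  · exact ⟨(1, u, u), (4, u, u), (5, u, u), by simp, by simp, by simp, by simp [B2], by simp [B2],
      by simp [B2]⟩
  · exact ⟨(1, u, u), (1, v, v), (6, u, v), by simp [huv.ne], by simp, by simp, by simp [B3],
      by simp [B3], by simp [B3]⟩

theorem line_two {M : List (List Bool)} (hs : ∀ i j, A M i j → A M j i)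
    (l : {l // l ∈ lines M}) : ∃ p q, p ≠ q ∧ Inc M p l ∧ Inc M q l := by
  obtain ⟨l, hl⟩ := l
  have hl' := hl
  rw [lines, List.mem_append] at hl'
  rcases hl' with h | h
  · obtain ⟨p, q, r, hpq, _, _, h1, h2, _⟩ := big_three h
    exact ⟨⟨p, big_pts hs h h1⟩, ⟨q, big_pts hs h h2⟩, fun h => hpq (congrArg Subtype.val h),
      h1, h2⟩
  · rw [mem_smalls] at h
    obtain ⟨p, q, hp, hq, hlt, _, rfl⟩ := h
    refine ⟨⟨p, hp⟩, ⟨q, hq⟩, fun h => lt_ne hlt (congrArg Subtype.val h), ?_, ?_⟩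
    · show p ∈ [p, q]
      simp
    · show q ∈ [p, q]
      simp

theorem big_iff {M : List (List Bool)} (hs : ∀ i j, A M i j → A M j i)
    (l : {l // l ∈ lines M}) : Big (Inc M) l ↔ l.1 ∈ bigs M := by
  obtain ⟨l, hl⟩ := l
  constructor
  · rintro ⟨p, q, r, h1, h2, h3, h4, h5, h6⟩
    rw [lines, List.mem_append] at hl
    rcases hl with h | h
    · exact h
    · exfalso
      rw [mem_smalls] at h
      obtain ⟨a, b, _, _, _, _, rfl⟩ := h
      have e4 : p.1 = a ∨ p.1 = b := mem_small_iff.1 h4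
      have e5 : q.1 = a ∨ q.1 = b := mem_small_iff.1 h5
      have e6 : r.1 = a ∨ r.1 = b := mem_small_iff.1 h6
      have h1' : p.1 ≠ q.1 := fun h => h1 (Subtype.ext h)
      have h2' : p.1 ≠ r.1 := fun h => h2 (Subtype.ext h)
      have h3' : q.1 ≠ r.1 := fun h => h3 (Subtype.ext h)
      rcases e4 with e4 | e4 <;> rcases e5 with e5 | e5 <;> rcases e6 with e6 | e6
      · exact h1' (e4.trans e5.symm)
      · exact h1' (e4.trans e5.symm)
      · exact h2' (e4.trans e6.symm)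
      · exact h3' (e5.trans e6.symm)
      · exact h3' (e5.trans e6.symm)
      · exact h2' (e4.trans e6.symm)
      · exact h1' (e4.trans e5.symm)
      · exact h1' (e4.trans e5.symm)
  · intro h
    obtain ⟨p, q, r, h1, h2, h3, h4, h5, h6⟩ := big_three h
    exact ⟨⟨p, big_pts hs h h4⟩, ⟨q, big_pts hs h h5⟩, ⟨r, big_pts hs h h6⟩,
      fun h => h1 (congrArg Subtype.val h), fun h => h2 (congrArg Subtype.val h),
      fun h => h3 (congrArg Subtype.val h), h4, h5, h6⟩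

/-! ### The graph is recovered -/

theorem vtx_mem {M : List (List Bool)} {u : ℕ} (hu : u < M.length) : (1, u, u) ∈ pts M :=
  mem_pts.2 (Or.inr (Or.inl ⟨0, u, by omega, hu, rfl⟩))

theorem sp_vtx {M : List (List Bool)} (hs : ∀ i j, A M i j → A M j i) (p : {z // z ∈ pts M}) :
    Sp (Gam (Inc M)) (Sum.inl p) ↔ ∃ u < M.length, p.1 = (1, u, u) := by
  rw [sp_inl]
  constructor
  · rintro ⟨l, m, hlm, h1, h2, h3, h4⟩
    rw [big_iff hs] at h3 h4
    have hp := p.2
    rw [mem_pts] at hp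
    have hp1 := big_pos h3 h1
    have hp2 : ¬ 2 ≤ p.1.1 := fun h => hlm (Subtype.ext ((eq_ln h3 h1 h).trans (eq_ln h4 h2 h).symm))
    rcases hp with h | ⟨k, u, hk, hu, h⟩ | ⟨u, v, _, h⟩
    · rw [h] at hp1
      simp at hp1
    · rw [h] at hp2
      simp only at hp2
      obtain rfl : k = 0 := by omega
      exact ⟨u, hu, h⟩
    · rw [h] at hp2
      simp at hp2
  · rintro ⟨u, hu, h⟩
    have m1 : B1 u ∈ bigs M := mem_bigs.2 (Or.inl ⟨u, hu, rfl⟩)
    have m2 : B2 u ∈ bigs M := mem_bigs.2 (Or.inr (Or.inl ⟨u, hu, rfl⟩))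
    refine ⟨⟨B1 u, List.mem_append_left _ m1⟩, ⟨B2 u, List.mem_append_left _ m2⟩, ?_, ?_, ?_,
      (big_iff hs _).2 m1, (big_iff hs _).2 m2⟩
    · intro h
      have := congrArg Subtype.val h
      simp [B1, B2] at this
    · show p.1 ∈ B1 u
      rw [h]
      simp [B1]
    · show p.1 ∈ B2 u
      rw [h]
      simp [B2]

theorem rec_vtx {M : List (List Bool)} (hs : ∀ i j, A M i j → A M j i) (hi : ∀ i, ¬ A M i i)
    {u v : ℕ} (hu : u < M.length)
    (hv : v < M.length) (hp : Sp (Gam (Inc M)) (Sum.inl ⟨(1, u, u), vtx_mem hu⟩))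
    (hq : Sp (Gam (Inc M)) (Sum.inl ⟨(1, v, v), vtx_mem hv⟩)) :
    (Rec (Gam (Inc M))).Adj ⟨Sum.inl ⟨(1, u, u), vtx_mem hu⟩, hp⟩
      ⟨Sum.inl ⟨(1, v, v), vtx_mem hv⟩, hq⟩ ↔ A M u v := by
  rw [rec_adj]
  constructor
  · rintro ⟨h0, l, h1, h2, h3⟩
    rw [big_iff hs] at h3
    have h4 := big_one h3 h1 h2 (fun h => h0 (Subtype.ext h)) rfl rfl
    rw [h4] at h3
    have h5 : u ≠ v := fun h => h0 (by subst h; rfl)
    have h6 : (6, min u v, max u v) ∈ pts M := by
      apply big_pts hs h3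
      simp [B3]
    rw [mem_pts] at h6
    rcases h6 with h | ⟨k, w, hk, hw, h⟩ | ⟨a, b, hA, h⟩
    · simp at h
    · simp only [Prod.mk.injEq] at h
      omega
    · simp only [Prod.mk.injEq, true_and] at h
      rcases Nat.lt_or_gt_of_ne h5 with h7 | h7
      · rw [min_eq_left h7.le, max_eq_right h7.le] at h
        rw [h.1, h.2]
        exact hA
      · rw [min_eq_right h7.le, max_eq_left h7.le] at h
        rw [h.1, h.2]
        exact hs _ _ hA
  · intro hA
    have h5 : u ≠ v := by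
      rintro rfl
      exact hi _ hA
    have key : ∃ l ∈ bigs M, (1, u, u) ∈ l ∧ (1, v, v) ∈ l := by
      rcases Nat.lt_or_gt_of_ne h5 with h7 | h7
      · exact ⟨B3 u v, mem_bigs.2 (Or.inr (Or.inr ⟨u, v, h7, hA, rfl⟩)), by simp [B3],
          by simp [B3]⟩
      · exact ⟨B3 v u, mem_bigs.2 (Or.inr (Or.inr ⟨v, u, h7, hs _ _ hA, rfl⟩)), by simp [B3],
          by simp [B3]⟩
    obtain ⟨l, hl, h1, h2⟩ := key
    refine ⟨fun h => h5 ?_, ⟨l, List.mem_append_left _ hl⟩, h1, h2, (big_iff hs _).2 hl⟩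
    have := congrArg Subtype.val h
    simp only [Prod.mk.injEq, true_and] at this
    exact this.1

theorem A_adj {n : ℕ} (X : SimpleGraph (Fin n)) (i j : Fin n) :
    A (adjMatrix X) i j ↔ X.Adj i j := by
  unfold A
  rw [ent_adjMatrix, length_adjMatrix]
  exact ⟨fun h => h.2.2, fun h => ⟨i.2, j.2, h⟩⟩

theorem A_symm {n : ℕ} (X : SimpleGraph (Fin n)) (i j : ℕ) (h : A (adjMatrix X) i j) :
    A (adjMatrix X) j i := by
  have h1 := h.1
  have h2 := h.2.1
  rw [length_adjMatrix] at h1 h2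
  exact (A_adj X ⟨j, h2⟩ ⟨i, h1⟩).2 ((A_adj X ⟨i, h1⟩ ⟨j, h2⟩).1 h).symm

theorem A_irrefl {n : ℕ} (X : SimpleGraph (Fin n)) (i : ℕ) (h : A (adjMatrix X) i i) : False := by
  have h1 := h.1
  rw [length_adjMatrix] at h1
  exact ((A_adj X ⟨i, h1⟩ ⟨i, h1⟩).1 h).ne rfl

/-- The graph is recovered. -/
theorem rec_iso_graph {n : ℕ} (X : SimpleGraph (Fin n)) :
    Nonempty (X ≃g Rec (Gam (Inc (adjMatrix X)))) := by
  have hs := A_symm X
  have hlen := length_adjMatrix X
  have hlt : ∀ u : Fin n, (u : ℕ) < (adjMatrix X).length := fun u => by rw [hlen]; exact u.2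
  have hsp : ∀ u : Fin n, Sp (Gam (Inc (adjMatrix X))) (Sum.inl ⟨(1, u, u), vtx_mem (hlt u)⟩) :=
    fun u => (sp_vtx hs _).2 ⟨u, hlt u, rfl⟩
  let f : Fin n → {p // Sp (Gam (Inc (adjMatrix X))) p} := fun u =>
    ⟨Sum.inl ⟨(1, u, u), vtx_mem (hlt u)⟩, hsp u⟩
  have hf : Function.Bijective f := by
    constructor
    · intro u v h
      have h1 := congrArg Subtype.val h
      have h2 := congrArg Subtype.val (Sum.inl.inj h1)
      simp only [Prod.mk.injEq, true_and] at h2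
      exact Fin.ext h2.1
    · rintro ⟨p, hp⟩
      match p with
      | Sum.inr x => exact absurd hp (not_sp_inr x)
      | Sum.inl p =>
        have h1 := (sp_vtx hs p).1 hp
        obtain ⟨u, hu, h2⟩ := h1
        rw [hlen] at hu
        refine ⟨⟨u, hu⟩, ?_⟩
        apply Subtype.ext
        apply congrArg Sum.inl
        exact Subtype.ext h2.symm
  refine ⟨⟨Equiv.ofBijective f hf, ?_⟩⟩
  intro u v
  rw [← A_adj X u v]
  exact rec_vtx hs (A_irrefl X) (hlt u) (hlt v) (hsp u) (hsp v)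

end Pool.Agent.Q321.GE
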