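import Pool.Agent.Q321.GE.Geo

/-!
# The geodetic graph of a linear space

Points and flags of a linear space; a point is adjacent to its flags, and two flags are adjacent if
they have the same line.
-/

set_option autoImplicit false

namespace Pool.Agent.Q321.GE

open SimpleGraph

section

variable {P L : Type} (inc : P → L → Prop)

/-- A linear space: any two distinct points lie on exactly one line. -/
structure Lin : Prop where
  ex : ∀ p q, p ≠ q → ∃ l, inc p l ∧ inc q l
  un : ∀ p q l m, p ≠ q → inc p l → inc q l → inc p m → inc q m → l = m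

/-- points and flags -/
abbrev W : Type := P ⊕ {x : P × L // inc x.1 x.2}

/-- adjacency -/
def AdjW : W inc → W inc → Prop
  | Sum.inl _, Sum.inl _ => False
  | Sum.inl p, Sum.inr x => x.1.1 = p
  | Sum.inr x, Sum.inl p => x.1.1 = p
  | Sum.inr x, Sum.inr y => x.1.2 = y.1.2 ∧ x.1.1 ≠ y.1.1

/-- The graph of a linear space. -/
def Gam : SimpleGraph (W inc) where
  Adj := AdjW inc
  symm := ⟨fun a b h => by
    match a, b with
    | Sum.inl _, Sum.inl _ => exact h
    | Sum.inl p, Sum.inr x => exact h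
    | Sum.inr x, Sum.inl p => exact h
    | Sum.inr x, Sum.inr y => exact ⟨h.1.symm, h.2.symm⟩⟩
  loopless := ⟨fun a h => by
    match a with
    | Sum.inl _ => exact h
    | Sum.inr x => exact h.2 rfl⟩

open Classical in
/-- the distance -/
noncomputable def D : W inc → W inc → ℕ
  | .inl p, .inl q => if p = q then 0 else 3
  | .inl p, .inr y => if p = y.1.1 then 1 else if inc p y.1.2 then 2 else 4
  | .inr x, .inl q => if q = x.1.1 then 1 else if inc q x.1.2 then 2 else 4
  | .inr x, .inr y =>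
      if x.1.2 = y.1.2 then (if x.1.1 = y.1.1 then 0 else 1)
      else if x.1.1 = y.1.1 then 2
      else if inc x.1.1 y.1.2 ∨ inc y.1.1 x.1.2 then 3
      else if ∃ r, inc r x.1.2 ∧ inc r y.1.2 then 4 else 5

theorem D_self (v : W inc) : D inc v v = 0 := by
  match v with
  | .inl p => simp [D]
  | .inr x => simp [D]

theorem eq_of_D {u v : W inc} (h : D inc u v = 0) : u = v := by
  match u, v with
  | .inl p, .inl q =>
    by_cases h1 : p = q
    · rw [h1]
    · simp [D, h1] at h
  | .inl p, .inr y =>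
    exfalso
    simp only [D] at h
    split_ifs at h
  | .inr x, .inl q =>
    exfalso
    simp only [D] at h
    split_ifs at h
  | .inr x, .inr y =>
    simp only [D] at h
    split_ifs at h with h1 h2
    rw [show x = y from Subtype.ext (Prod.ext h2 h1)]

theorem D_le (u v : W inc) : D inc u v ≤ 5 := by
  match u, v with
  | .inl p, .inl q =>
    simp only [D]
    split_ifs <;> omega
  | .inl p, .inr y =>
    simp only [D]
    split_ifs <;> omega
  | .inr x, .inl q =>
    simp only [D]
    split_ifs <;> omega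
  | .inr x, .inr y =>
    simp only [D]
    split_ifs <;> omega

variable {inc}

theorem step (hL : Lin inc) (u v : W inc) (huv : u ≠ v) : ∃ w, (Gam inc).Adj u w ∧
    D inc w v + 1 = D inc u v ∧ ∀ w', (Gam inc).Adj u w' → w' ≠ w → D inc u v ≤ D inc w' v := by
  match u, v with
  | .inl p, .inl q =>
    have hpq : p ≠ q := fun h => huv (by rw [h])
    obtain ⟨l, h1, h2⟩ := hL.ex p q hpq
    refine ⟨.inr ⟨(p, l), h1⟩, rfl, ?_, fun w' hw' hne => ?_⟩
    · simp [D, hpq, hpq.symm, h2]
    · match w' with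
      | .inl r => exact absurd hw' (by exact fun h => h)
      | .inr ⟨(r, m), h3⟩ =>
        obtain rfl : r = p := hw'
        have hm : ¬ inc q m := fun h4 => hne (by
          rw [Sum.inr.injEq, Subtype.mk.injEq, Prod.mk.injEq]
          exact ⟨rfl, hL.un r q m l hpq h3 h4 h1 h2⟩)
        simp [D, hpq, hpq.symm, hm]
  | .inl p, .inr ⟨(q, m), hqm⟩ =>
    by_cases hpq : p = q
    · subst hpq
      refine ⟨.inr ⟨(p, m), hqm⟩, rfl, by simp [D], fun w' hw' hne => ?_⟩
      match w' with
      | .inl r => exact absurd hw' (by exact fun h => h)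
      | .inr ⟨(r, l), h3⟩ =>
        obtain rfl : r = p := hw'
        have hlm : l ≠ m := fun h => hne (by subst h; rfl)
        simp [D, hlm]
    · by_cases hpm : inc p m
      · refine ⟨.inr ⟨(p, m), hpm⟩, rfl, by simp [D, hpq, hpm], fun w' hw' hne => ?_⟩
        match w' with
        | .inl r => exact absurd hw' (by exact fun h => h)
        | .inr ⟨(r, l), h3⟩ =>
          obtain rfl : r = p := hw'
          have hlm : l ≠ m := fun h => hne (by subst h; rfl)
          simp [D, hlm, hpq, hpm]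
      · obtain ⟨l, h1, h2⟩ := hL.ex p q hpq
        have hlm : l ≠ m := fun h => hpm (h ▸ h1)
        refine ⟨.inr ⟨(p, l), h1⟩, rfl, by simp [D, hpq, hpm, hlm, h2], fun w' hw' hne => ?_⟩
        match w' with
        | .inl r => exact absurd hw' (by exact fun h => h)
        | .inr ⟨(r, k), h3⟩ =>
          obtain rfl : r = p := hw'
          have hkm : k ≠ m := fun h => hpm (h ▸ h3)
          have hqk : ¬ inc q k := fun h4 => hne (by
            rw [Sum.inr.injEq, Subtype.mk.injEq, Prod.mk.injEq]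
            exact ⟨rfl, hL.un r q k l hpq h3 h4 h1 h2⟩)
          simp only [D, hkm, hpq, hpm, hqk, if_false, or_self]
          split_ifs <;> omega
  | .inr ⟨(p, l), hpl⟩, .inl q =>
    by_cases hqp : q = p
    · subst hqp
      refine ⟨.inl q, rfl, by simp [D], fun w' hw' hne => ?_⟩
      match w' with
      | .inl r => exact absurd (congrArg Sum.inl (show q = r from hw').symm) hne
      | .inr ⟨(r, m), h3⟩ =>
        have h4 : l = m := hw'.1
        have h5 : q ≠ r := hw'.2
        subst h4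
        simp [D, h5, hpl]
    · by_cases hql : inc q l
      · refine ⟨.inr ⟨(q, l), hql⟩, ⟨rfl, Ne.symm hqp⟩, by simp [D, hqp, hql], fun w' hw' hne => ?_⟩
        match w' with
        | .inl r =>
          have h4 : p = r := hw'
          subst h4
          simp [D, hqp, Ne.symm hqp, hql]
        | .inr ⟨(r, m), h3⟩ =>
          have h4 : l = m := hw'.1
          subst h4
          have h6 : q ≠ r := fun h => hne (by subst h; rfl)
          simp [D, h6, hqp, hql]
      · refine ⟨.inl p, rfl, by simp [D, hqp, Ne.symm hqp, hql], fun w' hw' hne => ?_⟩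
        match w' with
        | .inl r => exact absurd (congrArg Sum.inl (show p = r from hw').symm) hne
        | .inr ⟨(r, m), h3⟩ =>
          have h4 : l = m := hw'.1
          subst h4
          have h6 : q ≠ r := fun h => hql (h ▸ h3)
          simp [D, h6, hqp, hql]
  | .inr ⟨(p, l), hpl⟩, .inr ⟨(q, m), hqm⟩ =>
    by_cases hlm : l = m
    · subst hlm
      have hpq : p ≠ q := fun h => huv (by subst h; rfl)
      refine ⟨.inr ⟨(q, l), hqm⟩, ⟨rfl, hpq⟩, by simp [D, hpq], fun w' hw' hne => ?_⟩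
      match w' with
      | .inl r =>
        have h4 : p = r := hw'
        subst h4
        simp [D, hpq, hpl]
      | .inr ⟨(r, k), h3⟩ =>
        have h4 : l = k := hw'.1
        subst h4
        have h6 : r ≠ q := fun h => hne (by subst h; rfl)
        simp [D, h6, hpq]
    · by_cases hpq : p = q
      · subst hpq
        refine ⟨.inl p, rfl, by simp [D, hlm], fun w' hw' hne => ?_⟩
        match w' with
        | .inl r => exact absurd (congrArg Sum.inl (show p = r from hw').symm) hne
        | .inr ⟨(r, k), h3⟩ =>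
          have h4 : l = k := hw'.1
          have h5 : p ≠ r := hw'.2
          subst h4
          simp [D, h5.symm, hlm, hpl]
      · by_cases hpm : inc p m
        · refine ⟨.inl p, rfl, by simp [D, hlm, hpq, hpm], fun w' hw' hne => ?_⟩
          match w' with
          | .inl r => exact absurd (congrArg Sum.inl (show p = r from hw').symm) hne
          | .inr ⟨(r, k), h3⟩ =>
            have h4 : l = k := hw'.1
            have h5 : p ≠ r := hw'.2
            subst h4
            have hrq : r ≠ q := by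
              rintro rfl
              exact hlm (hL.un p r l m h5 hpl h3 hpm hqm)
            have hrm : ¬ inc r m := fun h => hlm (hL.un p r l m h5 hpl h3 hpm h)
            have hql : ¬ inc q l := fun h => hlm (hL.un p q l m hpq hpl h hpm hqm)
            have hex : ∃ r, inc r l ∧ inc r m := ⟨p, hpl, hpm⟩
            simp [D, hlm, hpq, hpm, hrq, hrm, hql, hex]
        · by_cases hql : inc q l
          · refine ⟨.inr ⟨(q, l), hql⟩, ⟨rfl, hpq⟩, by simp [D, hlm, hpq, hql],
              fun w' hw' hne => ?_⟩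
            match w' with
            | .inl r =>
              have h4 : p = r := hw'
              subst h4
              simp [D, hlm, hpq, hpm, hql]
            | .inr ⟨(r, k), h3⟩ =>
              have h4 : l = k := hw'.1
              subst h4
              have h6 : r ≠ q := fun h => hne (by subst h; rfl)
              simp [D, h6, hpq, hlm, hql]
          · by_cases hex : ∃ r, inc r l ∧ inc r m
            · obtain ⟨r₀, hr1, hr2⟩ := hex
              have hex : ∃ r, inc r l ∧ inc r m := ⟨r₀, hr1, hr2⟩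
              have h5 : p ≠ r₀ := by rintro rfl; exact hpm hr2
              have h6 : r₀ ≠ q := by rintro rfl; exact hql hr1
              refine ⟨.inr ⟨(r₀, l), hr1⟩, ⟨rfl, h5⟩, by simp [D, hlm, hpq, hpm, hql, hex, hr2, h6],
                fun w' hw' hne => ?_⟩
              match w' with
              | .inl r =>
                have h4 : p = r := hw'
                subst h4
                simp [D, hlm, hpq, hpm, hql, hex]
              | .inr ⟨(r, k), h3⟩ =>
                have h4 : l = k := hw'.1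
                subst h4
                have h7 : r ≠ r₀ := fun h => hne (by subst h; rfl)
                have h8 : ¬ inc r m := fun h => hlm (hL.un r r₀ l m h7 h3 hr1 h hr2)
                have h9 : r ≠ q := by rintro rfl; exact hql h3
                simp [D, hlm, hpq, hpm, hql, hex, h8, h9]
            · refine ⟨.inl p, rfl, by simp [D, hlm, hpq, hpm, hql, hex], fun w' hw' hne => ?_⟩
              match w' with
              | .inl r => exact absurd (congrArg Sum.inl (show p = r from hw').symm) hne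
              | .inr ⟨(r, k), h3⟩ =>
                have h4 : l = k := hw'.1
                subst h4
                have h8 : ¬ inc r m := fun h => hex ⟨r, h3, h⟩
                have h9 : r ≠ q := by rintro rfl; exact hql h3
                simp [D, hlm, hpq, hpm, hql, hex, h8, h9]

/-- The graph of a linear space is geodetic, and its diameter is at most five. -/
theorem gam_geodetic [Nonempty P] (hL : Lin inc) :
    Geodetic (Gam inc) ∧ ∀ u v, (Gam inc).dist u v ≤ 5 := by
  have hs := step hL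
  have h1 : ∀ u v : W inc, u ≠ v → ∃ w, (Gam inc).Adj u w ∧ D inc w v + 1 = D inc u v :=
    fun u v h => by
      obtain ⟨w, hw, hd, _⟩ := hs u v h
      exact ⟨w, hw, hd⟩
  have key := geodetic_of (G := Gam inc) (D := D inc) (D_self inc) (fun u v h => eq_of_D inc h) h1
    (fun u w v hw => by
      by_cases huv : u = v
      · rw [huv, D_self]; omega
      · obtain ⟨w₀, _, hd, hu⟩ := hs u v huv
        by_cases hww : w = w₀
        · rw [hww, hd]
        · exact (hu w hw hww).trans (Nat.le_succ _))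
    (fun u v w w' hw hw' hd hd' => by
      have huv : u ≠ v := by
        rintro rfl
        rw [D_self] at hd
        omega
      obtain ⟨w₀, _, hd₀, hu⟩ := hs u v huv
      have a1 : w = w₀ := by
        by_contra hne
        have := hu w hw hne
        omega
      have a2 : w' = w₀ := by
        by_contra hne
        have := hu w' hw' hne
        omega
      rw [a1, a2])
  exact ⟨key.1, fun u v => by rw [key.2]; exact D_le inc u v⟩

end

/-! ### Isomorphisms -/

section

variable {P L P' L' : Type} {inc : P → L → Prop} {inc' : P' → L' → Prop}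

/-- A bijection of the points which respects the lines induces an isomorphism. -/
theorem gam_iso (hL : Lin inc) (hL' : Lin inc')
    (h2 : ∀ l, ∃ p q, p ≠ q ∧ inc p l ∧ inc q l) (h2' : ∀ l, ∃ p q, p ≠ q ∧ inc' p l ∧ inc' q l)
    (ψ : P ≃ P') (hψ : ∀ l, ∃ l', ∀ p, inc p l ↔ inc' (ψ p) l')
    (hψ' : ∀ l', ∃ l, ∀ p, inc p l ↔ inc' (ψ p) l') : Nonempty (Gam inc ≃g Gam inc') := by
  choose f hf using hψ
  choose g hg using hψ'
  have hgf : ∀ l, g (f l) = l := fun l => by
    obtain ⟨p, q, hpq, h3, h4⟩ := h2 l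
    exact hL.un p q _ _ hpq ((hg _ _).2 ((hf _ _).1 h3)) ((hg _ _).2 ((hf _ _).1 h4)) h3 h4
  have hfg : ∀ l, f (g l) = l := fun l => by
    obtain ⟨p, q, hpq, h3, h4⟩ := h2' l
    have e1 := ψ.apply_symm_apply p
    have e2 := ψ.apply_symm_apply q
    rw [← e1] at h3
    rw [← e2] at h4
    exact hL'.un _ _ _ _ (fun h => hpq (by rw [← e1, ← e2, h])) ((hf _ _).1 ((hg _ _).2 h3))
      ((hf _ _).1 ((hg _ _).2 h4)) h3 h4
  let e : {x : P × L // inc x.1 x.2} ≃ {x : P' × L' // inc' x.1 x.2} :=
    { toFun := fun x => ⟨(ψ x.1.1, f x.1.2), (hf _ _).1 x.2⟩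
      invFun := fun x => ⟨(ψ.symm x.1.1, g x.1.2), (hg _ _).2 (by
        rw [ψ.apply_symm_apply]; exact x.2)⟩
      left_inv := fun x => Subtype.ext (Prod.ext (ψ.symm_apply_apply _) (hgf _))
      right_inv := fun x => Subtype.ext (Prod.ext (ψ.apply_symm_apply _) (hfg _)) }
  refine ⟨⟨Equiv.sumCongr ψ e, ?_⟩⟩
  intro a b
  match a, b with
  | Sum.inl p, Sum.inl q => exact Iff.rfl
  | Sum.inl p, Sum.inr x => exact ψ.injective.eq_iff
  | Sum.inr x, Sum.inl p => exact ψ.injective.eq_iff
  | Sum.inr x, Sum.inr y =>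
    show (f x.1.2 = f y.1.2 ∧ ψ x.1.1 ≠ ψ y.1.1) ↔ (x.1.2 = y.1.2 ∧ x.1.1 ≠ y.1.1)
    have hfi : Function.Injective f := Function.LeftInverse.injective hgf
    rw [hfi.eq_iff, ψ.injective.ne_iff]

end

/-! ### Recovering a graph -/

section

variable {V V' : Type}

/-- the vertex lies in a triangle -/
def Tri (G : SimpleGraph V) (x : V) : Prop := ∃ y z, G.Adj x y ∧ G.Adj x z ∧ G.Adj y z

/-- special vertices -/
def Sp (G : SimpleGraph V) (p : V) : Prop :=
  ¬ Tri G p ∧ ∃ x y, x ≠ y ∧ G.Adj p x ∧ G.Adj p y ∧ Tri G x ∧ Tri G y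

/-- The graph on the special vertices. -/
def Rec (G : SimpleGraph V) : SimpleGraph {p // Sp G p} where
  Adj p q := p ≠ q ∧ ∃ x y z, G.Adj p.1 x ∧ G.Adj q.1 y ∧ G.Adj x y ∧ G.Adj x z ∧ G.Adj y z
  symm := ⟨fun p q h => by
    obtain ⟨h1, x, y, z, h2, h3, h4, h5, h6⟩ := h
    exact ⟨h1.symm, y, x, z, h3, h2, h4.symm, h6, h5⟩⟩
  loopless := ⟨fun p h => h.1 rfl⟩

theorem tri_map {G : SimpleGraph V} {G' : SimpleGraph V'} (φ : G ≃g G') {x : V} (h : Tri G x) :
    Tri G' (φ x) := by
  obtain ⟨y, z, h1, h2, h3⟩ := h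
  exact ⟨φ y, φ z, φ.map_adj_iff.2 h1, φ.map_adj_iff.2 h2, φ.map_adj_iff.2 h3⟩

theorem tri_iff {G : SimpleGraph V} {G' : SimpleGraph V'} (φ : G ≃g G') {x : V} :
    Tri G x ↔ Tri G' (φ x) := by
  refine ⟨tri_map φ, fun h => ?_⟩
  have := tri_map φ.symm h
  rwa [φ.symm_apply_apply] at this

theorem sp_map {G : SimpleGraph V} {G' : SimpleGraph V'} (φ : G ≃g G') {x : V} (h : Sp G x) :
    Sp G' (φ x) := by
  obtain ⟨h1, y, z, h2, h3, h4, h5, h6⟩ := h
  exact ⟨fun h => h1 ((tri_iff φ).2 h), φ y, φ z, fun h => h2 (φ.injective h), φ.map_adj_iff.2 h3,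
    φ.map_adj_iff.2 h4, tri_map φ h5, tri_map φ h6⟩

theorem sp_iff {G : SimpleGraph V} {G' : SimpleGraph V'} (φ : G ≃g G') {x : V} :
    Sp G x ↔ Sp G' (φ x) := by
  refine ⟨sp_map φ, fun h => ?_⟩
  have := sp_map φ.symm h
  rwa [φ.symm_apply_apply] at this

theorem rec_map {G : SimpleGraph V} {G' : SimpleGraph V'} (φ : G ≃g G') {p q : {p // Sp G p}}
    (h : (Rec G).Adj p q) : (Rec G').Adj ⟨φ p.1, sp_map φ p.2⟩ ⟨φ q.1, sp_map φ q.2⟩ := by
  obtain ⟨h1, x, y, z, h2, h3, h4, h5, h6⟩ := h
  exact ⟨fun h => h1 (Subtype.ext (φ.injective (congrArg Subtype.val h))), φ x, φ y, φ z,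
    φ.map_adj_iff.2 h2, φ.map_adj_iff.2 h3, φ.map_adj_iff.2 h4, φ.map_adj_iff.2 h5,
    φ.map_adj_iff.2 h6⟩

theorem rec_iso {G : SimpleGraph V} {G' : SimpleGraph V'} (φ : G ≃g G') :
    Nonempty (Rec G ≃g Rec G') := by
  refine ⟨⟨φ.toEquiv.subtypeEquiv fun a => sp_iff φ, ?_⟩⟩
  intro p q
  refine ⟨fun h => ?_, fun h => rec_map φ h⟩
  have := rec_map φ.symm h
  have e : ∀ r : {p // Sp G p}, (⟨φ.symm (φ r.1), sp_map φ.symm (sp_map φ r.2)⟩ : {p // Sp G p}) = r :=
    fun r => Subtype.ext (φ.symm_apply_apply _)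
  have h2 : (Rec G).Adj ⟨φ.symm (φ p.1), sp_map φ.symm (sp_map φ p.2)⟩
    ⟨φ.symm (φ q.1), sp_map φ.symm (sp_map φ q.2)⟩ := this
  rw [e, e] at h2
  exact h2

end

section

variable {P L : Type} {inc : P → L → Prop}

/-- the line has three points -/
def Big (inc : P → L → Prop) (l : L) : Prop :=
  ∃ p q r, p ≠ q ∧ p ≠ r ∧ q ≠ r ∧ inc p l ∧ inc q l ∧ inc r l

theorem not_tri_inl (p : P) : ¬ Tri (Gam inc) (Sum.inl p) := by
  rintro ⟨y, z, h1, h2, h3⟩
  match y, z with
  | Sum.inl _, _ => exact h1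
  | Sum.inr _, Sum.inl _ => exact h2
  | Sum.inr x, Sum.inr y =>
    have a1 : x.1.1 = p := h1
    have a2 : y.1.1 = p := h2
    exact h3.2 (a1.trans a2.symm)

theorem tri_inr (x : {x : P × L // inc x.1 x.2}) : Tri (Gam inc) (Sum.inr x) ↔ Big inc x.1.2 := by
  obtain ⟨⟨p, l⟩, hp⟩ := x
  constructor
  · rintro ⟨y, z, h1, h2, h3⟩
    match y, z with
    | Sum.inl _, Sum.inl _ => exact absurd h3 (by exact fun h => h)
    | Sum.inl a, Sum.inr ⟨(q, m), hq⟩ =>
      have a1 : p = a := h1
      have a2 : q = a := h3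
      exact absurd (a1.trans a2.symm) h2.2
    | Sum.inr ⟨(q, m), hq⟩, Sum.inl a =>
      have a1 : p = a := h2
      have a2 : q = a := h3
      exact absurd (a1.trans a2.symm) h1.2
    | Sum.inr ⟨(q, m), hq⟩, Sum.inr ⟨(r, k), hr⟩ =>
      have a1 : l = m := h1.1
      have a2 : l = k := h2.1
      subst a1
      subst a2
      exact ⟨p, q, r, h1.2, h2.2, h3.2, hp, hq, hr⟩
  · rintro ⟨a, b, c, hab, hac, hbc, ha, hb, hc⟩
    have key : ∃ q r, p ≠ q ∧ p ≠ r ∧ q ≠ r ∧ inc q l ∧ inc r l := by
      by_cases h1 : p = a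
      · subst h1
        exact ⟨b, c, hab, hac, hbc, hb, hc⟩
      · by_cases h2 : p = b
        · subst h2
          exact ⟨a, c, h1, hbc, hac, ha, hc⟩
        · exact ⟨a, b, h1, h2, hab, ha, hb⟩
    obtain ⟨q, r, h1, h2, h3, h4, h5⟩ := key
    exact ⟨Sum.inr ⟨(q, l), h4⟩, Sum.inr ⟨(r, l), h5⟩, ⟨rfl, h1⟩, ⟨rfl, h2⟩, ⟨rfl, h3⟩⟩

theorem sp_inl (p : P) : Sp (Gam inc) (Sum.inl p) ↔
    ∃ l m, l ≠ m ∧ inc p l ∧ inc p m ∧ Big inc l ∧ Big inc m := by
  constructor
  · rintro ⟨-, x, y, hxy, h1, h2, h3, h4⟩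
    match x, y with
    | Sum.inl _, _ => exact absurd h1 (by exact fun h => h)
    | Sum.inr _, Sum.inl _ => exact absurd h2 (by exact fun h => h)
    | Sum.inr ⟨(q, l), hq⟩, Sum.inr ⟨(r, m), hr⟩ =>
      obtain rfl : q = p := h1
      obtain rfl : r = q := h2
      rw [tri_inr] at h3 h4
      exact ⟨l, m, fun h => hxy (by subst h; rfl), hq, hr, h3, h4⟩
  · rintro ⟨l, m, hlm, h1, h2, h3, h4⟩
    refine ⟨not_tri_inl p, Sum.inr ⟨(p, l), h1⟩, Sum.inr ⟨(p, m), h2⟩, fun h => hlm ?_, rfl, rfl,
      (tri_inr _).2 h3, (tri_inr _).2 h4⟩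
    rw [Sum.inr.injEq, Subtype.mk.injEq, Prod.mk.injEq] at h
    exact h.2

theorem not_sp_inr (x : {x : P × L // inc x.1 x.2}) : ¬ Sp (Gam inc) (Sum.inr x) := by
  rintro ⟨h0, y, z, hyz, h1, h2, h3, h4⟩
  rw [tri_inr] at h0
  match y, z with
  | Sum.inl _, _ => exact not_tri_inl _ h3
  | Sum.inr y, _ =>
    rw [tri_inr] at h3
    have h5 : x.1.2 = y.1.2 := h1.1
    exact h0 (h5 ▸ h3)

theorem rec_adj (p q : P) (hp : Sp (Gam inc) (Sum.inl p)) (hq : Sp (Gam inc) (Sum.inl q)) :
    (Rec (Gam inc)).Adj ⟨Sum.inl p, hp⟩ ⟨Sum.inl q, hq⟩ ↔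
      p ≠ q ∧ ∃ l, inc p l ∧ inc q l ∧ Big inc l := by
  constructor
  · rintro ⟨h0, x, y, z, h1, h2, h3, h4, h5⟩
    refine ⟨fun h => h0 (by subst h; rfl), ?_⟩
    match x, y with
    | Sum.inl _, _ => exact absurd h1 (by exact fun h => h)
    | Sum.inr _, Sum.inl _ => exact absurd h2 (by exact fun h => h)
    | Sum.inr ⟨(a, l), ha⟩, Sum.inr ⟨(b, m), hb⟩ =>
      obtain rfl : a = p := h1
      obtain rfl : b = q := h2
      have h6 : l = m := h3.1
      subst h6
      refine ⟨l, ha, hb, (tri_inr ⟨(a, l), ha⟩).1 ⟨_, _, h3, h4, h5⟩⟩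
  · rintro ⟨h0, l, h1, h2, h3⟩
    obtain ⟨a, b, c, hab, hac, hbc, ha, hb, hc⟩ := h3
    have key : ∃ r, p ≠ r ∧ q ≠ r ∧ inc r l := by
      by_cases h4 : p = a ∨ q = a
      · by_cases h5 : p = b ∨ q = b
        · refine ⟨c, ?_, ?_, hc⟩
          · rintro rfl
            rcases h4 with h4 | h4
            · exact hac h4.symm
            · rcases h5 with h5 | h5
              · exact hbc h5.symm
              · exact hab (h4.symm.trans h5)
          · rintro rfl
            rcases h4 with h4 | h4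
            · rcases h5 with h5 | h5
              · exact hab (h4.symm.trans h5)
              · exact hbc h5.symm
            · exact hac h4.symm
        · exact ⟨b, fun h => h5 (Or.inl h), fun h => h5 (Or.inr h), hb⟩
      · exact ⟨a, fun h => h4 (Or.inl h), fun h => h4 (Or.inr h), ha⟩
    obtain ⟨r, h4, h5, h6⟩ := key
    refine ⟨fun h => h0 ?_, Sum.inr ⟨(p, l), h1⟩, Sum.inr ⟨(q, l), h2⟩, Sum.inr ⟨(r, l), h6⟩,
      rfl, rfl, ⟨rfl, h0⟩, ⟨rfl, h4⟩, ⟨rfl, h5⟩⟩
    rw [Subtype.mk.injEq, Sum.inl.injEq] at h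
    exact h

end

end Pool.Agent.Q321.GE
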