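import Mathlib

/-!
# Geodetic graphs
-/

set_option autoImplicit false

namespace Pool.Agent.Q321.GE

open SimpleGraph

/-- A graph is geodetic if it is connected and any two vertices are joined by exactly one shortest
path. -/
def Geodetic {V : Type} (G : SimpleGraph V) : Prop :=
  G.Connected ∧ ∀ u v : V, ∃! p : G.Walk u v, p.IsPath ∧ p.length = G.dist u v

theorem Geodetic.of_iso {V W : Type} {G : SimpleGraph V} {H : SimpleGraph W} (hG : Geodetic G)
    (φ : G ≃g H) : Geodetic H := by
  have hc : H.Connected := φ.connected_iff.1 hG.1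
  refine ⟨hc, fun u v => ?_⟩
  have hd : ∀ a b : V, H.dist (φ a) (φ b) = G.dist a b := fun a b => by
    apply le_antisymm
    · obtain ⟨p, hp⟩ := hG.1.exists_walk_length_eq_dist a b
      rw [← hp, ← Walk.length_map φ.toHom p]
      exact dist_le _
    · obtain ⟨p, hp⟩ := hc.exists_walk_length_eq_dist (φ a) (φ b)
      have h1 := dist_le ((p.map φ.symm.toHom).copy (φ.symm_apply_apply a) (φ.symm_apply_apply b))
      rw [Walk.length_copy, Walk.length_map, hp] at h1
      exact h1
  obtain ⟨p, hp, hu⟩ := hG.2 (φ.symm u) (φ.symm v)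
  have hlen : ∀ {a b : V} (p q : G.Walk a b), p.IsPath ∧ p.length = G.dist a b →
      q.IsPath ∧ q.length = G.dist a b → p = q := fun {a b} p q h1 h2 =>
    ExistsUnique.unique (hG.2 a b) h1 h2
  refine ⟨(p.map φ.toHom).copy (φ.apply_symm_apply u) (φ.apply_symm_apply v), ⟨?_, ?_⟩, ?_⟩
  · rw [Walk.isPath_copy]
    exact Walk.map_isPath_of_injective φ.injective hp.1
  · rw [Walk.length_copy, Walk.length_map, hp.2, ← hd, φ.apply_symm_apply, φ.apply_symm_apply]
  · intro q hq
    have e1 : (q.map φ.symm.toHom) = p := by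
      apply hlen _ _ _ hp
      refine ⟨Walk.map_isPath_of_injective φ.symm.injective hq.1, ?_⟩
      rw [Walk.length_map, hq.2]
      have := hd (φ.symm u) (φ.symm v)
      rw [φ.apply_symm_apply, φ.apply_symm_apply] at this
      exact this
    apply Walk.ext_support
    rw [Walk.support_copy, Walk.support_map, ← e1, Walk.support_map, List.map_map]
    have : (φ.toHom : V → W) ∘ (φ.symm.toHom : W → V) = id := by
      funext x
      exact φ.apply_symm_apply x
    rw [this, List.map_id]

section

variable {V : Type} {G : SimpleGraph V} {D : V → V → ℕ}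

theorem D_le_length (h0 : ∀ v, D v v = 0) (h2 : ∀ u w v, G.Adj u w → D u v ≤ D w v + 1) {u v : V}
    (p : G.Walk u v) : D u v ≤ p.length := by
  induction p with
  | nil => rw [h0]; simp
  | cons h p ih =>
    rw [Walk.length_cons]
    exact (h2 _ _ _ h).trans (Nat.add_le_add_right ih 1)

theorem exists_walk (h0 : ∀ v, D v v = 0) (h0' : ∀ u v, D u v = 0 → u = v)
    (h1 : ∀ u v, u ≠ v → ∃ w, G.Adj u w ∧ D w v + 1 = D u v) (k : ℕ) :
    ∀ u v : V, D u v = k → ∃ p : G.Walk u v, p.length = k := by
  induction k with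
  | zero =>
    intro u v h
    have := h0' u v h
    subst this
    exact ⟨Walk.nil, rfl⟩
  | succ k ih =>
    intro u v h
    have huv : u ≠ v := by
      rintro rfl
      rw [h0] at h
      omega
    obtain ⟨w, hw, h3⟩ := h1 u v huv
    obtain ⟨p, hp⟩ := ih w v (by omega)
    exact ⟨Walk.cons hw p, by rw [Walk.length_cons, hp]⟩

theorem walk_unique (h2 : ∀ u w v, G.Adj u w → D u v ≤ D w v + 1) (h0 : ∀ v, D v v = 0)
    (h3 : ∀ u v w w', G.Adj u w → G.Adj u w' → D w v + 1 = D u v → D w' v + 1 = D u v → w = w')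
    {u v : V} (p q : G.Walk u v) (hp : p.length = D u v) (hq : q.length = D u v) : p = q := by
  induction p with
  | nil =>
    cases q with
    | nil => rfl
    | cons h q =>
      rw [← hp] at hq
      simp at hq
  | @cons a b c h p ih =>
    cases q with
    | nil =>
      rw [← hq] at hp
      simp at hp
    | @cons _ d _ h' q =>
      rw [Walk.length_cons] at hp hq
      have l1 := D_le_length h0 h2 p
      have l2 := D_le_length h0 h2 q
      have m1 := h2 _ _ c h
      have m2 := h2 _ _ c h'
      have hbd : b = d := h3 a c b d h h' (by omega) (by omega)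
      subst hbd
      rw [ih q (by omega) (by omega)]

/-- A criterion: a function which has the properties of the distance in a geodetic graph. -/
theorem geodetic_of [Nonempty V] (h0 : ∀ v, D v v = 0) (h0' : ∀ u v, D u v = 0 → u = v)
    (h1 : ∀ u v, u ≠ v → ∃ w, G.Adj u w ∧ D w v + 1 = D u v)
    (h2 : ∀ u w v, G.Adj u w → D u v ≤ D w v + 1)
    (h3 : ∀ u v w w', G.Adj u w → G.Adj u w' → D w v + 1 = D u v → D w' v + 1 = D u v → w = w') :
    Geodetic G ∧ ∀ u v, G.dist u v = D u v := by
  have hw := exists_walk (G := G) h0 h0' h1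
  have hc : G.Connected := by
    rw [connected_iff_exists_forall_reachable]
    refine ⟨Classical.arbitrary V, fun w => ?_⟩
    obtain ⟨p, _⟩ := hw _ _ w rfl
    exact p.reachable
  have hd : ∀ u v, G.dist u v = D u v := fun u v => by
    apply le_antisymm
    · obtain ⟨p, hp⟩ := hw _ u v rfl
      rw [← hp]
      exact dist_le p
    · obtain ⟨p, hp⟩ := hc.exists_walk_length_eq_dist u v
      rw [← hp]
      exact D_le_length h0 h2 p
  refine ⟨⟨hc, fun u v => ?_⟩, hd⟩
  obtain ⟨p, hp⟩ := hw _ u v rfl
  refine ⟨p, ⟨?_, by rw [hp, hd]⟩, fun q hq => ?_⟩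
  · exact Walk.isPath_of_length_eq_dist p (by rw [hp, hd])
  · exact walk_unique h2 h0 h3 q p (by rw [hq.2, hd]) hp

end

end Pool.Agent.Q321.GE
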