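import Pool.Agent.Q321.GE.Two

/-!
# The reduction
-/

set_option autoImplicit false

namespace Pool.Agent.Q321.GE

open SimpleGraph hiding adjMatrix
open Pool.Agent.NPC Pool.Agent.NPC.R671
open Pool.Agent.Y815.GI (ent length_adjMatrix ent_adjMatrix valid valid_iff poly_ent poly_valid
  poly_range_len GraphIso)

/-- 2-connected geodetic graphs of diameter at most five -/
def Good {V : Type} (G : SimpleGraph V) : Prop :=
  Geodetic G ∧ TwoConnected G ∧ ∀ u v, G.dist u v ≤ 5

theorem Good.of_iso {V W : Type} {G : SimpleGraph V} {H : SimpleGraph W} (hG : Good G)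
    (φ : G ≃g H) : Good H := by
  refine ⟨hG.1.of_iso φ, hG.2.1.of_iso φ, fun u v => ?_⟩
  obtain ⟨p, hp⟩ := hG.1.1.exists_walk_length_eq_dist (φ.symm u) (φ.symm v)
  have h1 := hG.2.2 (φ.symm u) (φ.symm v)
  have h2 := dist_le ((p.map φ.toHom).copy (φ.apply_symm_apply u) (φ.apply_symm_apply v))
  rw [Walk.length_copy, Walk.length_map, hp] at h2
  exact h2.trans h1

theorem good_top (n : ℕ) : Good (⊤ : SimpleGraph (Fin (n + 3))) :=
  ⟨geodetic_top, two_top n, fun u v => (dist_top u v).trans (by norm_num)⟩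

theorem good_gam {n : ℕ} (hn : 0 < n) (X : SimpleGraph (Fin n)) :
    Good (Gam (Inc (adjMatrix X))) := by
  haveI : Nonempty {z // z ∈ pts (adjMatrix X)} := ⟨⟨(0, 0, 0), mem_pts.2 (Or.inl rfl)⟩⟩
  obtain ⟨h1, h2⟩ := gam_geodetic (lin (adjMatrix X))
  exact ⟨h1, gam_two_adj hn X, h2⟩

/-- the matrix of a complete graph -/
def compl (k : ℕ) : List (List Bool) :=
  (List.range k).map (fun i => (List.range k).map (fun j => !(decide (i = j))))

theorem compl_eq (k : ℕ) : adjMatrix (⊤ : SimpleGraph (Fin k)) = compl k := by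
  unfold adjMatrix compl
  apply List.ext_getElem
  · simp
  · intro i h1 h2
    simp only [List.getElem_ofFn, List.getElem_map, List.getElem_range]
    apply List.ext_getElem
    · simp
    · intro j h3 h4
      simp only [List.getElem_ofFn, List.getElem_map, List.getElem_range, top_adj, ne_eq,
        Fin.mk.injEq]
      by_cases h : i = j <;> simp [h]

/-- the reduction -/
def red (p : List (List Bool) × List (List Bool)) : List (List Bool) × List (List Bool) :=
  if (valid p.1 = true ∧ valid p.2 = true) ∧ p.1.length = p.2.length then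
    (if p.1.length = 0 then (compl 3, compl 3) else (out p.1, out p.2))
  else (compl 3, compl 4)

theorem graphIso_adj {N M : ℕ} (X : SimpleGraph (Fin N)) (Y : SimpleGraph (Fin M)) :
    GraphIso (adjMatrix X, adjMatrix Y) ↔ Nonempty (X ≃g Y) := by
  constructor
  · rintro ⟨n', m', X₁, Y₁, e1, e2, h⟩
    have hn' : n' = N := by
      rw [← length_adjMatrix X₁, e1, length_adjMatrix]
    have hm' : m' = M := by
      rw [← length_adjMatrix Y₁, e2, length_adjMatrix]
    subst hn'
    subst hm'
    rw [adjMatrix_inj e1, adjMatrix_inj e2] at h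
    exact h
  · intro h
    exact ⟨N, M, X, Y, rfl, rfl, h⟩

theorem not_iso_34 : ¬ Nonempty ((⊤ : SimpleGraph (Fin 3)) ≃g (⊤ : SimpleGraph (Fin 4))) := by
  rintro ⟨φ⟩
  have := Fintype.card_congr φ.toEquiv
  simp at this

theorem red_spec (p : List (List Bool) × List (List Bool)) :
    ∃ (N M : ℕ) (X' : SimpleGraph (Fin N)) (Y' : SimpleGraph (Fin M)),
      red p = (adjMatrix X', adjMatrix Y') ∧ Good X' ∧ Good Y' ∧
        (GraphIso p ↔ Nonempty (X' ≃g Y')) := by
  by_cases h : (valid p.1 = true ∧ valid p.2 = true) ∧ p.1.length = p.2.length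
  · obtain ⟨p1, p2⟩ := p
    have hh := h
    obtain ⟨⟨h1, h2⟩, h3⟩ := h
    rw [valid_iff] at h1 h2
    obtain ⟨n, X, rfl⟩ := h1
    obtain ⟨m, Y, rfl⟩ := h2
    rw [length_adjMatrix, length_adjMatrix] at h3
    subst h3
    by_cases hn : n = 0
    · subst hn
      refine ⟨3, 3, ⊤, ⊤, ?_, good_top 0, good_top 0, ?_⟩
      · unfold red
        rw [if_pos hh, if_pos (length_adjMatrix X), compl_eq]
      · rw [graphIso_adj]
        refine ⟨fun _ => ⟨Iso.refl⟩, fun _ => ⟨⟨Equiv.refl _, ?_⟩⟩⟩
        intro a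
        exact a.elim0
    · obtain ⟨N, X', hX', ⟨φ⟩⟩ := out_eq X
      obtain ⟨M, Y', hY', ⟨ψ⟩⟩ := out_eq Y
      refine ⟨N, M, X', Y', ?_, (good_gam (Nat.pos_of_ne_zero hn) X).of_iso φ.symm,
        (good_gam (Nat.pos_of_ne_zero hn) Y).of_iso ψ.symm, ?_⟩
      · unfold red
        rw [if_pos hh, if_neg (by rw [length_adjMatrix]; exact hn), hX', hY']
      · rw [graphIso_adj, iso_iff X Y]
        constructor
        · rintro ⟨χ⟩
          exact ⟨φ.trans (χ.trans ψ.symm)⟩
        · rintro ⟨χ⟩
          exact ⟨φ.symm.trans (χ.trans ψ)⟩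
  · refine ⟨3, 4, ⊤, ⊤, ?_, good_top 0, good_top 1, ?_⟩
    · unfold red
      rw [if_neg h, compl_eq, compl_eq]
    · refine ⟨?_, fun h => absurd h not_iso_34⟩
      rintro ⟨n, m, X, Y, h1, h2, ⟨φ⟩⟩
      exfalso
      apply h
      refine ⟨⟨(valid_iff _).2 ⟨n, X, h1⟩, (valid_iff _).2 ⟨m, Y, h2⟩⟩, ?_⟩
      rw [← h1, ← h2, length_adjMatrix, length_adjMatrix]
      have := Fintype.card_congr φ.toEquiv
      simpa using this

/-! ### Polynomial time -/

section

variable {α : Type} [TEnc α]

@[fun_prop]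
theorem poly_ltB {f g : α → Pn} (hf : Poly f) (hg : Poly g) : Poly (fun a => ltB (f a) (g a)) := by
  unfold ltB
  fun_prop

@[fun_prop]
theorem poly_B1 {f : α → ℕ} (hf : Poly f) : Poly (fun a => B1 (f a)) := by
  unfold B1
  fun_prop

@[fun_prop]
theorem poly_B2 {f : α → ℕ} (hf : Poly f) : Poly (fun a => B2 (f a)) := by
  unfold B2
  fun_prop

@[fun_prop]
theorem poly_B3 {f g : α → ℕ} (hf : Poly f) (hg : Poly g) : Poly (fun a => B3 (f a) (g a)) := by
  unfold B3
  fun_prop

@[fun_prop]
theorem poly_pts {f : α → List (List Bool)} (hf : Poly f) : Poly (fun a => pts (f a)) := by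
  unfold pts
  fun_prop

@[fun_prop]
theorem poly_bigs {f : α → List (List Bool)} (hf : Poly f) : Poly (fun a => bigs (f a)) := by
  unfold bigs
  fun_prop

@[fun_prop]
theorem poly_cov {f : α → List (List Bool)} {g h : α → Pn} (hf : Poly f) (hg : Poly g)
    (hh : Poly h) : Poly (fun a => cov (f a) (g a) (h a)) := by
  unfold cov
  fun_prop

@[fun_prop]
theorem poly_smalls {f : α → List (List Bool)} (hf : Poly f) : Poly (fun a => smalls (f a)) := by
  unfold smalls
  fun_prop

@[fun_prop]
theorem poly_lines {f : α → List (List Bool)} (hf : Poly f) : Poly (fun a => lines (f a)) := by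
  unfold lines
  fun_prop

@[fun_prop]
theorem poly_verts {f : α → List (List Bool)} (hf : Poly f) : Poly (fun a => verts (f a)) := by
  unfold verts
  fun_prop

@[fun_prop]
theorem poly_adB {f g : α → Pn × List Pn} (hf : Poly f) (hg : Poly g) :
    Poly (fun a => adB (f a) (g a)) := by
  unfold adB
  fun_prop

@[fun_prop]
theorem poly_out {f : α → List (List Bool)} (hf : Poly f) : Poly (fun a => out (f a)) := by
  unfold out
  fun_prop

end

theorem poly_red : Poly red := by
  unfold red
  fun_prop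

end Pool.Agent.Q321.GE
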