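import Pool.Agent.Q321.GE.Conc

/-!
# The construction respects isomorphisms
-/

set_option autoImplicit false

namespace Pool.Agent.Q321.GE

open Pool.Agent.NPC Pool.Agent.NPC.R671
open Pool.Agent.Y815.GI (ent length_adjMatrix ent_adjMatrix valid valid_iff poly_ent poly_valid
  poly_range_len)

/-- an isomorphism of graphs in terms of numbers -/
structure Tr (M M' : List (List Bool)) (f g : ℕ → ℕ) : Prop where
  f1 : ∀ i < M.length, f i < M'.length ∧ g (f i) = i
  g1 : ∀ j < M'.length, g j < M.length ∧ f (g j) = j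
  ad : ∀ i j, i < M.length → j < M.length → (A M i j ↔ A M' (f i) (f j))

theorem Tr.symm {M M' : List (List Bool)} {f g : ℕ → ℕ} (h : Tr M M' f g) : Tr M' M g f where
  f1 := h.g1
  g1 := h.f1
  ad i j hi hj := by
    rw [h.ad _ _ (h.g1 i hi).1 (h.g1 j hj).1, (h.g1 i hi).2, (h.g1 j hj).2]

/-- the map of the points -/
def tr (f : ℕ → ℕ) (z : Pn) : Pn := if z.1 = 0 then z else (z.1, f z.2.1, f z.2.2)

section

variable {M M' : List (List Bool)} {f g : ℕ → ℕ}

theorem tr_mem (h : Tr M M' f g) {z : Pn} (hz : z ∈ pts M) : tr f z ∈ pts M' := by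
  rw [mem_pts] at hz ⊢
  rcases hz with rfl | ⟨k, u, hk, hu, rfl⟩ | ⟨u, v, hA, rfl⟩
  · exact Or.inl rfl
  · exact Or.inr (Or.inl ⟨k, f u, hk, (h.f1 u hu).1, by simp [tr]⟩)
  · exact Or.inr (Or.inr ⟨f u, f v, (h.ad u v hA.1 hA.2.1).1 hA, by simp [tr]⟩)

theorem tr_tr (h : Tr M M' f g) {z : Pn} (hz : z ∈ pts M) : tr g (tr f z) = z := by
  rw [mem_pts] at hz
  rcases hz with rfl | ⟨k, u, hk, hu, rfl⟩ | ⟨u, v, hA, rfl⟩
  · rfl
  · simp [tr, (h.f1 u hu).2]
  · simp [tr, (h.f1 u hA.1).2, (h.f1 v hA.2.1).2]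

theorem tr_inj (h : Tr M M' f g) {z w : Pn} (hz : z ∈ pts M) (hw : w ∈ pts M)
    (he : tr f z = tr f w) : z = w := by
  rw [← tr_tr h hz, ← tr_tr h hw, he]

theorem big_tr (h : Tr M M' f g) (hs : ∀ i j, A M' i j → A M' j i) {l : List Pn}
    (hl : l ∈ bigs M) : ∃ l' ∈ bigs M', ∀ z ∈ l, tr f z ∈ l' := by
  rw [mem_bigs] at hl
  rcases hl with ⟨u, hu, rfl⟩ | ⟨u, hu, rfl⟩ | ⟨u, v, huv, hA, rfl⟩
  · refine ⟨B1 (f u), mem_bigs.2 (Or.inl ⟨f u, (h.f1 u hu).1, rfl⟩), fun z hz => ?_⟩
    simp only [B1, List.mem_cons, List.not_mem_nil, or_false] at hz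
    rcases hz with rfl | rfl | rfl <;> simp [tr, B1]
  · refine ⟨B2 (f u), mem_bigs.2 (Or.inr (Or.inl ⟨f u, (h.f1 u hu).1, rfl⟩)), fun z hz => ?_⟩
    simp only [B2, List.mem_cons, List.not_mem_nil, or_false] at hz
    rcases hz with rfl | rfl | rfl <;> simp [tr, B2]
  · have hne : f u ≠ f v := fun he => by
      have := (h.f1 u hA.1).2
      rw [he, (h.f1 v hA.2.1).2] at this
      omega
    have hA' := (h.ad u v hA.1 hA.2.1).1 hA
    rcases Nat.lt_or_gt_of_ne hne with hlt | hlt
    · refine ⟨B3 (f u) (f v), mem_bigs.2 (Or.inr (Or.inr ⟨_, _, hlt, hA', rfl⟩)), fun z hz => ?_⟩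
      simp only [B3, List.mem_cons, List.not_mem_nil, or_false] at hz
      rcases hz with rfl | rfl | rfl | rfl <;> simp [tr, B3]
    · refine ⟨B3 (f v) (f u), mem_bigs.2 (Or.inr (Or.inr ⟨_, _, hlt, hs _ _ hA', rfl⟩)),
        fun z hz => ?_⟩
      simp only [B3, List.mem_cons, List.not_mem_nil, or_false] at hz
      rcases hz with rfl | rfl | rfl | rfl <;> simp [tr, B3]

theorem line_tr (h : Tr M M' f g) (hs : ∀ i j, A M i j → A M j i)
    (hs' : ∀ i j, A M' i j → A M' j i) {l : List Pn} (hl : l ∈ lines M) :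
    ∃ l' ∈ lines M', ∀ z ∈ pts M, z ∈ l ↔ tr f z ∈ l' := by
  rw [lines, List.mem_append] at hl
  rcases hl with hl | hl
  · obtain ⟨l', hl', h1⟩ := big_tr h hs' hl
    refine ⟨l', List.mem_append_left _ hl', fun z hz => ⟨h1 z, fun h2 => ?_⟩⟩
    obtain ⟨l'', hl'', h3⟩ := big_tr h.symm hs hl'
    obtain ⟨p, q, r, hpq, _, _, hp, hq, _⟩ := big_three hl
    have e1 := h3 _ (h1 p hp)
    have e2 := h3 _ (h1 q hq)
    rw [tr_tr h (big_pts hs hl hp)] at e1
    rw [tr_tr h (big_pts hs hl hq)] at e2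
    have e3 := h3 _ h2
    rw [tr_tr h hz] at e3
    rw [big_unique hl hl'' hpq hp hq e1 e2]
    exact e3
  · rw [mem_smalls] at hl
    obtain ⟨p, q, hp, hq, hlt, hn, rfl⟩ := hl
    have hpq : tr f p ≠ tr f q := fun he => lt_ne hlt (tr_inj h hp hq he)
    obtain ⟨l', hl', h1, h2⟩ := line_ex (tr_mem h hp) (tr_mem h hq) hpq
    refine ⟨l', hl', fun z hz => ?_⟩
    rw [mem_small_iff]
    constructor
    · rintro (rfl | rfl)
      · exact h1
      · exact h2
    · intro h3
      rw [lines, List.mem_append] at hl'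
      rcases hl' with hl' | hl'
      · exfalso
        obtain ⟨l'', hl'', h4⟩ := big_tr h.symm hs hl'
        have e1 := h4 _ h1
        have e2 := h4 _ h2
        rw [tr_tr h hp] at e1
        rw [tr_tr h hq] at e2
        exact hn ⟨l'', hl'', e1, e2⟩
      · rw [mem_smalls] at hl'
        obtain ⟨a, b, _, _, _, _, rfl⟩ := hl'
        rw [mem_small_iff] at h1 h2 h3
        have key : tr f z = tr f p ∨ tr f z = tr f q := by
          rcases h1 with h1 | h1 <;> rcases h2 with h2 | h2 <;> rcases h3 with h3 | h3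
          · exact absurd (h1.trans h2.symm) hpq
          · exact absurd (h1.trans h2.symm) hpq
          · exact Or.inl (h3.trans h1.symm)
          · exact Or.inr (h3.trans h2.symm)
          · exact Or.inr (h3.trans h2.symm)
          · exact Or.inl (h3.trans h1.symm)
          · exact absurd (h1.trans h2.symm) hpq
          · exact absurd (h1.trans h2.symm) hpq
        rcases key with k | k
        · exact Or.inl (tr_inj h hz hp k)
        · exact Or.inr (tr_inj h hz hq k)

theorem gam_tr (h : Tr M M' f g) (hs : ∀ i j, A M i j → A M j i)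
    (hs' : ∀ i j, A M' i j → A M' j i) : Nonempty (Gam (Inc M) ≃g Gam (Inc M')) := by
  let ψ : {z // z ∈ pts M} ≃ {z // z ∈ pts M'} :=
    { toFun := fun z => ⟨tr f z.1, tr_mem h z.2⟩
      invFun := fun z => ⟨tr g z.1, tr_mem h.symm z.2⟩
      left_inv := fun z => Subtype.ext (tr_tr h z.2)
      right_inv := fun z => Subtype.ext (tr_tr h.symm z.2) }
  refine gam_iso (lin M) (lin M') (line_two hs) (line_two hs') ψ ?_ ?_
  · rintro ⟨l, hl⟩
    obtain ⟨l', hl', h1⟩ := line_tr h hs hs' hl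
    exact ⟨⟨l', hl'⟩, fun p => h1 p.1 p.2⟩
  · rintro ⟨l', hl'⟩
    obtain ⟨l, hl, h1⟩ := line_tr h.symm hs' hs hl'
    refine ⟨⟨l, hl⟩, fun p => ?_⟩
    show p.1 ∈ l ↔ tr f p.1 ∈ l'
    rw [h1 _ (tr_mem h p.2), tr_tr h p.2]

end

theorem gam_congr {n m : ℕ} {X : SimpleGraph (Fin n)} {Y : SimpleGraph (Fin m)} (φ : X ≃g Y) :
    Nonempty (Gam (Inc (adjMatrix X)) ≃g Gam (Inc (adjMatrix Y))) := by
  have hX := length_adjMatrix X
  have hY := length_adjMatrix Y
  refine gam_tr (f := fun i => if h : i < n then (φ ⟨i, h⟩ : ℕ) else 0)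
    (g := fun i => if h : i < m then (φ.symm ⟨i, h⟩ : ℕ) else 0) ⟨?_, ?_, ?_⟩ (A_symm X) (A_symm Y)
  · intro i hi
    rw [hX] at hi
    rw [hY]
    simp [hi]
  · intro i hi
    rw [hY] at hi
    rw [hX]
    simp [hi]
  · intro i j hi hj
    rw [hX] at hi hj
    simp only [hi, hj, dif_pos]
    rw [A_adj Y, φ.map_adj_iff]
    exact A_adj X ⟨i, hi⟩ ⟨j, hj⟩

/-- Isomorphism of graphs and of the constructions. -/
theorem iso_iff {n m : ℕ} (X : SimpleGraph (Fin n)) (Y : SimpleGraph (Fin m)) :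
    Nonempty (X ≃g Y) ↔ Nonempty (Gam (Inc (adjMatrix X)) ≃g Gam (Inc (adjMatrix Y))) := by
  constructor
  · rintro ⟨φ⟩
    exact gam_congr φ
  · rintro ⟨ψ⟩
    obtain ⟨a⟩ := rec_iso_graph X
    obtain ⟨b⟩ := rec_iso_graph Y
    obtain ⟨c⟩ := rec_iso ψ
    exact ⟨a.trans (c.trans b.symm)⟩

/-! ### The list of the vertices -/

/-- the vertices -/
def verts (M : List (List Bool)) : List (Pn × List Pn) :=
  (pts M).map (fun p => ((p, []) : Pn × List Pn)) ++
  (pts M ×ˢ lines M).filter (fun x => decide (x.1 ∈ x.2))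

/-- adjacency -/
def adB (a b : Pn × List Pn) : Bool :=
  (decide (a.1 = b.1) && ((decide (a.2 = []) && !(decide (b.2 = []))) ||
    (!(decide (a.2 = [])) && decide (b.2 = [])))) ||
  (!(decide (a.1 = b.1)) && (decide (a.2 = b.2) && !(decide (a.2 = []))))

/-- the output matrix -/
def out (M : List (List Bool)) : List (List Bool) :=
  (verts M).map (fun u => (verts M).map (fun w => adB u w))

theorem adB_irrefl (a : Pn × List Pn) : adB a a = false := by
  simp [adB]

theorem adB_symm (a b : Pn × List Pn) : adB a b = adB b a := by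
  rw [Bool.eq_iff_iff]
  simp only [adB, Bool.or_eq_true, Bool.and_eq_true, Bool.not_eq_true', decide_eq_true_eq,
    decide_eq_false_iff_not]
  constructor
  · rintro (⟨h1, ⟨h2, h3⟩ | ⟨h2, h3⟩⟩ | ⟨h1, h2, h3⟩)
    · exact Or.inl ⟨h1.symm, Or.inr ⟨h3, h2⟩⟩
    · exact Or.inl ⟨h1.symm, Or.inl ⟨h3, h2⟩⟩
    · exact Or.inr ⟨fun h => h1 h.symm, h2.symm, h2 ▸ h3⟩
  · rintro (⟨h1, ⟨h2, h3⟩ | ⟨h2, h3⟩⟩ | ⟨h1, h2, h3⟩)
    · exact Or.inl ⟨h1.symm, Or.inr ⟨h3, h2⟩⟩
    · exact Or.inl ⟨h1.symm, Or.inl ⟨h3, h2⟩⟩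
    · exact Or.inr ⟨fun h => h1 h.symm, h2.symm, h2 ▸ h3⟩

/-- the label of a vertex -/
def code (M : List (List Bool)) : W (Inc M) → Pn × List Pn
  | Sum.inl p => (p.1, [])
  | Sum.inr x => (x.1.1.1, x.1.2.1)

theorem inc_ne_nil {M : List (List Bool)} (x : {x : {z // z ∈ pts M} × {l // l ∈ lines M} //
    Inc M x.1 x.2}) : x.1.2.1 ≠ [] := by
  intro h
  have := x.2
  unfold Inc at this
  rw [h] at this
  exact absurd this (by simp)

theorem code_inj (M : List (List Bool)) : Function.Injective (code M) := by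
  intro a b h
  match a, b with
  | Sum.inl p, Sum.inl q => rw [show p = q from Subtype.ext (congrArg Prod.fst h)]
  | Sum.inl p, Sum.inr x => exact absurd (congrArg Prod.snd h).symm (inc_ne_nil x)
  | Sum.inr x, Sum.inl p => exact absurd (congrArg Prod.snd h) (inc_ne_nil x)
  | Sum.inr x, Sum.inr y =>
    rw [show x = y from Subtype.ext (Prod.ext (Subtype.ext (congrArg Prod.fst h))
      (Subtype.ext (congrArg Prod.snd h)))]

theorem adB_code (M : List (List Bool)) (a b : W (Inc M)) :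
    adB (code M a) (code M b) = true ↔ (Gam (Inc M)).Adj a b := by
  simp only [adB, Bool.or_eq_true, Bool.and_eq_true, Bool.not_eq_true', decide_eq_true_eq,
    decide_eq_false_iff_not]
  match a, b with
  | Sum.inl p, Sum.inl q =>
    show _ ↔ False
    simp [code]
  | Sum.inl p, Sum.inr x =>
    show _ ↔ x.1.1 = p
    have h := inc_ne_nil x
    simp only [code, h, not_false_eq_true, and_true, not_true_eq_false, and_false, or_false,
      true_and]
    rw [Subtype.ext_iff]
    exact eq_comm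
  | Sum.inr x, Sum.inl p =>
    show _ ↔ x.1.1 = p
    have h := inc_ne_nil x
    simp only [code, h, not_false_eq_true, and_true, not_true_eq_false, and_false, or_false,
      false_and, false_or]
    rw [Subtype.ext_iff]
  | Sum.inr x, Sum.inr y =>
    show _ ↔ (x.1.2 = y.1.2 ∧ x.1.1 ≠ y.1.1)
    have h := inc_ne_nil x
    have h' := inc_ne_nil y
    simp only [code, h, h', not_false_eq_true, and_true, not_true_eq_false, and_false, or_false,
      false_and, false_or]
    rw [ne_eq, Subtype.ext_iff, Subtype.ext_iff]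
    exact and_comm

theorem mem_verts (M : List (List Bool)) (z : Pn × List Pn) :
    z ∈ verts M ↔ ∃ a, code M a = z := by
  unfold verts
  rw [List.mem_append, List.mem_map, List.mem_filter]
  constructor
  · rintro (⟨p, hp, rfl⟩ | ⟨h1, h2⟩)
    · exact ⟨Sum.inl ⟨p, hp⟩, rfl⟩
    · obtain ⟨p, l⟩ := z
      rw [List.mem_product] at h1
      rw [decide_eq_true_eq] at h2
      exact ⟨Sum.inr ⟨(⟨p, h1.1⟩, ⟨l, h1.2⟩), h2⟩, rfl⟩
  · rintro ⟨a, rfl⟩
    match a with
    | Sum.inl p => exact Or.inl ⟨p.1, p.2, rfl⟩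
    | Sum.inr x =>
      refine Or.inr ⟨?_, ?_⟩
      · show (x.1.1.1, x.1.2.1) ∈ _
        rw [List.mem_product]
        exact ⟨x.1.1.2, x.1.2.2⟩
      · rw [decide_eq_true_eq]
        exact x.2

theorem nodup_pts (M : List (List Bool)) : (pts M).Nodup := by
  unfold pts
  have hr : ∀ k : ℕ, (List.range k).Nodup := fun k => List.nodup_range
  refine List.Nodup.append (List.nodup_singleton _) (List.Nodup.append ?_ ?_ ?_) ?_
  · refine (List.Nodup.product (hr _) (hr _)).map fun a b h => ?_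
    simp only [Prod.mk.injEq] at h
    exact Prod.ext (by omega) h.2.1
  · refine ((List.Nodup.product (hr _) (hr _)).filter _).map fun a b h => ?_
    simp only [Prod.mk.injEq, true_and] at h
    exact Prod.ext h.1 h.2
  · intro z h1 h2
    rw [List.mem_map] at h1 h2
    obtain ⟨p, hp, rfl⟩ := h1
    obtain ⟨q, _, h3⟩ := h2
    obtain ⟨k, u⟩ := p
    rw [List.mem_product, List.mem_range] at hp
    have := congrArg Prod.fst h3
    simp only at this
    omega
  · intro z h1 h2
    rw [List.mem_singleton] at h1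
    subst h1
    rw [List.mem_append, List.mem_map, List.mem_map] at h2
    rcases h2 with ⟨q, _, h3⟩ | ⟨q, _, h3⟩
    · exact absurd (congrArg Prod.fst h3) (by simp)
    · exact absurd (congrArg Prod.fst h3) (by simp)

theorem nodup_lines (M : List (List Bool)) : (lines M).Nodup := by
  unfold lines
  have hr : ∀ k : ℕ, (List.range k).Nodup := fun k => List.nodup_range
  refine List.Nodup.append ?_ ?_ ?_
  · unfold bigs
    refine List.Nodup.append ?_ (List.Nodup.append ?_ ?_ ?_) ?_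
    · refine (hr _).map fun a b h => ?_
      simp only [B1, List.cons.injEq, Prod.mk.injEq] at h
      exact h.1.2.1
    · refine (hr _).map fun a b h => ?_
      simp only [B2, List.cons.injEq, Prod.mk.injEq] at h
      exact h.1.2.1
    · refine ((List.Nodup.product (hr _) (hr _)).filter _).map fun a b h => ?_
      simp only [B3, List.cons.injEq, Prod.mk.injEq] at h
      exact Prod.ext h.1.2.1 h.2.1.2.1
    · intro z h1 h2
      rw [List.mem_map] at h1 h2
      obtain ⟨u, _, rfl⟩ := h1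
      obtain ⟨q, _, h3⟩ := h2
      exact absurd (congrArg List.length h3) (by simp [B2, B3])
    · intro z h1 h2
      rw [List.mem_map] at h1
      rw [List.mem_append, List.mem_map, List.mem_map] at h2
      obtain ⟨u, _, rfl⟩ := h1
      rcases h2 with ⟨q, _, h3⟩ | ⟨q, _, h3⟩
      · simp only [B1, B2, List.cons.injEq, Prod.mk.injEq] at h3
        exact absurd h3.2.1.1 (by norm_num)
      · exact absurd (congrArg List.length h3) (by simp [B1, B3])
  · unfold smalls
    refine ((List.Nodup.product (nodup_pts M) (nodup_pts M)).filter _).map fun a b h => ?_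
    simp only [List.cons.injEq, and_true] at h
    exact Prod.ext h.1 h.2
  · intro z h1 h2
    obtain ⟨p, q, r, h3, h4, h5, h6, h7, h8⟩ := big_three h1
    rw [mem_smalls] at h2
    obtain ⟨a, b, _, _, _, _, rfl⟩ := h2
    rw [mem_small_iff] at h6 h7 h8
    rcases h6 with h6 | h6 <;> rcases h7 with h7 | h7 <;> rcases h8 with h8 | h8 <;>
      first
      | exact h3 (h6.trans h7.symm)
      | exact h4 (h6.trans h8.symm)
      | exact h5 (h7.trans h8.symm)

theorem nodup_verts (M : List (List Bool)) : (verts M).Nodup := by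
  unfold verts
  refine List.Nodup.append ?_ ?_ ?_
  · refine (nodup_pts M).map fun a b h => ?_
    exact congrArg Prod.fst h
  · exact (List.Nodup.product (nodup_pts M) (nodup_lines M)).filter _
  · intro z h1 h2
    rw [List.mem_map] at h1
    rw [List.mem_filter, decide_eq_true_eq] at h2
    obtain ⟨p, _, rfl⟩ := h1
    exact absurd h2.2 (by simp)

/-- The output is the adjacency matrix of a graph isomorphic to the construction. -/
theorem out_eq {n : ℕ} (X : SimpleGraph (Fin n)) : ∃ (N : ℕ) (X' : SimpleGraph (Fin N)),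
    adjMatrix X' = out (adjMatrix X) ∧ Nonempty (X' ≃g Gam (Inc (adjMatrix X))) := by
  obtain ⟨e, he⟩ := exists_equiv (verts (adjMatrix X)) (nodup_verts _) (code (adjMatrix X))
    (code_inj _) (mem_verts _)
  refine ⟨_, listGraph (verts (adjMatrix X)) adB adB_symm adB_irrefl, ?_, ⟨⟨e, ?_⟩⟩⟩
  · rw [adjMatrix_listGraph]
    rfl
  · intro a b
    rw [← adB_code, he, he]
    exact Iff.rfl

end Pool.Agent.Q321.GE
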