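import Pool.Agent.Q321.GE.Tran

/-!
# The construction is 2-connected
-/

set_option autoImplicit false

namespace Pool.Agent.Q321.GE

open SimpleGraph
open Pool.Agent.NPC Pool.Agent.NPC.R671
open Pool.Agent.Y815.GI (ent length_adjMatrix ent_adjMatrix valid valid_iff poly_ent poly_valid
  poly_range_len)

/-- A graph is 2-connected if it has at least three vertices and the deletion of any one vertex
leaves a connected graph. -/
def TwoConnected {V : Type} (G : SimpleGraph V) : Prop :=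
  (∃ a b c : V, a ≠ b ∧ a ≠ c ∧ b ≠ c) ∧ ∀ w : V, (G.induce {w}ᶜ).Connected

theorem TwoConnected.of_iso {V W : Type} {G : SimpleGraph V} {H : SimpleGraph W}
    (hG : TwoConnected G) (φ : G ≃g H) : TwoConnected H := by
  obtain ⟨⟨a, b, c, h1, h2, h3⟩, h4⟩ := hG
  refine ⟨⟨φ a, φ b, φ c, fun h => h1 (φ.injective h), fun h => h2 (φ.injective h),
    fun h => h3 (φ.injective h)⟩, fun w => ?_⟩
  have h5 := h4 (φ.symm w)
  let e : G.induce {φ.symm w}ᶜ ≃g H.induce {w}ᶜ :=
    ⟨φ.toEquiv.subtypeEquiv (fun x => by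
      show x ≠ φ.symm w ↔ φ x ≠ w
      constructor
      · rintro h rfl
        exact h (φ.symm_apply_apply x).symm
      · rintro h rfl
        exact h (φ.apply_symm_apply w)), by
      intro x y
      exact φ.map_adj_iff⟩
  exact e.connected_iff.1 h5

section

variable {P L : Type} {inc : P → L → Prop}

theorem gam_two (hL : Lin inc) (h2 : ∀ l, ∃ p q, p ≠ q ∧ inc p l ∧ inc q l)
    (h3 : ∀ l, ∃ s, ¬ inc s l) (h4 : ∃ a b c : P, a ≠ b ∧ a ≠ c ∧ b ≠ c) :
    TwoConnected (Gam inc) := by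
  refine ⟨?_, fun w => ?_⟩
  · obtain ⟨a, b, c, h5, h6, h7⟩ := h4
    exact ⟨Sum.inl a, Sum.inl b, Sum.inl c, fun h => h5 (Sum.inl.inj h), fun h => h6 (Sum.inl.inj h),
      fun h => h7 (Sum.inl.inj h)⟩
  have adj' : ∀ {u v : W inc} (hu : u ≠ w) (hv : v ≠ w), (Gam inc).Adj u v →
      ((Gam inc).induce {w}ᶜ).Reachable ⟨u, hu⟩ ⟨v, hv⟩ := fun hu hv h => Adj.reachable h
  match w with
  | Sum.inl p₀ =>
    have hne : ∀ {q : P}, q ≠ p₀ → (Sum.inl q : W inc) ≠ Sum.inl p₀ := fun h h' =>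
      h (Sum.inl.inj h')
    have hne' : ∀ {x : {x : P × L // inc x.1 x.2}}, (Sum.inr x : W inc) ≠ Sum.inl p₀ := fun h =>
      absurd h (by simp)
    have hpts : ∀ (q r : P) (hq : q ≠ p₀) (hr : r ≠ p₀),
        ((Gam inc).induce {Sum.inl p₀}ᶜ).Reachable ⟨Sum.inl q, hne hq⟩ ⟨Sum.inl r, hne hr⟩ := by
      intro q r hq hr
      by_cases hqr : q = r
      · subst hqr
        exact Reachable.refl _
      · obtain ⟨l, h5, h6⟩ := hL.ex q r hqr
        exact (adj' (hne hq) (hne' (x := ⟨(q, l), h5⟩)) rfl).trans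
          ((adj' (hne' (x := ⟨(q, l), h5⟩)) (hne' (x := ⟨(r, l), h6⟩)) ⟨rfl, hqr⟩).trans
          (adj' (hne' (x := ⟨(r, l), h6⟩)) (hne hr) rfl))
    have hall : ∀ v : {v // v ∈ ({Sum.inl p₀}ᶜ : Set (W inc))}, ∃ (q : P) (hq : q ≠ p₀),
        ((Gam inc).induce {Sum.inl p₀}ᶜ).Reachable v ⟨Sum.inl q, hne hq⟩ := by
      rintro ⟨v, hv⟩
      match v with
      | Sum.inl q => exact ⟨q, fun h => hv (by rw [h]; rfl), Reachable.refl _⟩
      | Sum.inr ⟨(q, l), hq⟩ =>
        by_cases hq0 : q = p₀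
        · have h5 : ∃ r, r ≠ q ∧ inc r l := by
            obtain ⟨a, b, hab, ha, hb⟩ := h2 l
            by_cases h : a = q
            · exact ⟨b, fun h' => hab (h.trans h'.symm), hb⟩
            · exact ⟨a, h, ha⟩
          obtain ⟨r, hr, hrl⟩ := h5
          have hr0 : r ≠ p₀ := fun h => hr (h.trans hq0.symm)
          exact ⟨r, hr0, (adj' (hne' (x := ⟨(q, l), hq⟩)) (hne' (x := ⟨(r, l), hrl⟩))
            ⟨rfl, hr.symm⟩).trans
            (adj' (hne' (x := ⟨(r, l), hrl⟩)) (hne hr0) rfl)⟩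
        · exact ⟨q, hq0, adj' hne' (hne hq0) rfl⟩
    have hex : ∃ q : P, q ≠ p₀ := by
      obtain ⟨a, b, c, h5, h6, h7⟩ := h4
      by_cases h : a = p₀
      · exact ⟨b, fun h' => h5 (h.trans h'.symm)⟩
      · exact ⟨a, h⟩
    obtain ⟨q₀, hq₀⟩ := hex
    rw [connected_iff_exists_forall_reachable]
    refine ⟨⟨Sum.inl q₀, hne hq₀⟩, fun v => ?_⟩
    obtain ⟨q, hq, h5⟩ := hall v
    exact (hpts _ _ hq₀ hq).trans h5.symm
  | Sum.inr w₀ =>
    have hne : ∀ {q : P}, (Sum.inl q : W inc) ≠ Sum.inr w₀ := fun h =>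
      absurd h (by simp)
    have hne' : ∀ {q : P} {l : L} {h : inc q l}, l ≠ w₀.1.2 →
        (Sum.inr ⟨(q, l), h⟩ : W inc) ≠ Sum.inr w₀ := by
      intro q l h hl h5
      have h6 := Sum.inr.inj h5
      exact hl (by rw [← h6])
    have hdir : ∀ (q r : P) (l : L), l ≠ w₀.1.2 → q ≠ r → inc q l → inc r l →
        ((Gam inc).induce {Sum.inr w₀}ᶜ).Reachable ⟨Sum.inl q, hne⟩
          ⟨Sum.inl r, hne⟩ := by
      intro q r l hl hqr h5 h6
      exact (adj' hne (hne' (h := h5) hl) rfl).trans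
          ((adj' (hne' (h := h5) hl) (hne' (h := h6) hl) ⟨rfl, hqr⟩).trans
          (adj' (hne' (h := h6) hl) hne rfl))
    have hoff : ∀ (q r : P), q ≠ r → ¬ inc r w₀.1.2 →
        ((Gam inc).induce {Sum.inr w₀}ᶜ).Reachable ⟨Sum.inl q, hne⟩
          ⟨Sum.inl r, hne⟩ := by
      intro q r hqr hr
      obtain ⟨l, h5, h6⟩ := hL.ex q r hqr
      exact hdir q r l (fun h => hr (h ▸ h6)) hqr h5 h6
    obtain ⟨s, hs⟩ := h3 w₀.1.2
    rw [connected_iff_exists_forall_reachable]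
    refine ⟨⟨Sum.inl s, hne⟩, fun v => ?_⟩
    have hpt : ∀ q : P, ((Gam inc).induce {Sum.inr w₀}ᶜ).Reachable
        ⟨Sum.inl s, hne⟩ ⟨Sum.inl q, hne⟩ := by
      intro q
      by_cases hqs : q = s
      · subst hqs
        exact Reachable.refl _
      · exact (hoff q s hqs hs).symm
    obtain ⟨v, hv⟩ := v
    match v with
    | Sum.inl q => exact hpt q
    | Sum.inr ⟨(q, l), hq⟩ => exact (hpt q).trans (adj' hne hv rfl)

end

/-- The construction is 2-connected. -/
theorem gam_two_adj {n : ℕ} (hn : 0 < n) (X : SimpleGraph (Fin n)) :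
    TwoConnected (Gam (Inc (adjMatrix X))) := by
  have hlen := length_adjMatrix X
  have h1 : ((1, 0, 0) : Pn) ∈ pts (adjMatrix X) :=
    mem_pts.2 (Or.inr (Or.inl ⟨0, 0, by omega, by omega, rfl⟩))
  have h2 : ((2, 0, 0) : Pn) ∈ pts (adjMatrix X) :=
    mem_pts.2 (Or.inr (Or.inl ⟨1, 0, by omega, by omega, rfl⟩))
  have h3 : ((3, 0, 0) : Pn) ∈ pts (adjMatrix X) :=
    mem_pts.2 (Or.inr (Or.inl ⟨2, 0, by omega, by omega, rfl⟩))
  have h0 : ((0, 0, 0) : Pn) ∈ pts (adjMatrix X) := mem_pts.2 (Or.inl rfl)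
  refine gam_two (lin _) (line_two (A_symm X)) ?_ ⟨⟨_, h1⟩, ⟨_, h2⟩, ⟨_, h3⟩, ?_, ?_, ?_⟩
  · rintro ⟨l, hl⟩
    have hl' := hl
    rw [lines, List.mem_append] at hl'
    rcases hl' with hl' | hl'
    · exact ⟨⟨_, h0⟩, fun h => absurd (big_pos hl' h) (by simp)⟩
    · rw [mem_smalls] at hl'
      obtain ⟨p, q, _, _, _, _, rfl⟩ := hl'
      by_contra hcon
      push Not at hcon
      have e1 : ((1, 0, 0) : Pn) ∈ [p, q] := hcon ⟨_, h1⟩
      have e2 : ((2, 0, 0) : Pn) ∈ [p, q] := hcon ⟨_, h2⟩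
      have e3 : ((3, 0, 0) : Pn) ∈ [p, q] := hcon ⟨_, h3⟩
      rw [mem_small_iff] at e1 e2 e3
      rcases e1 with e1 | e1 <;> rcases e2 with e2 | e2 <;> rcases e3 with e3 | e3 <;>
        first
        | exact absurd (e1.trans e2.symm) (by simp)
        | exact absurd (e1.trans e3.symm) (by simp)
        | exact absurd (e2.trans e3.symm) (by simp)
  · exact fun h => absurd (congrArg Subtype.val h) (by simp)
  · exact fun h => absurd (congrArg Subtype.val h) (by simp)
  · exact fun h => absurd (congrArg Subtype.val h) (by simp)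

/-! ### Small complete graphs -/

theorem geodetic_top {V : Type} [Nonempty V] : Geodetic (⊤ : SimpleGraph V) := by
  classical
  refine (geodetic_of (G := (⊤ : SimpleGraph V)) (D := fun u v => if u = v then 0 else 1)
    (fun v => if_pos rfl) ?_ ?_ ?_ ?_).1
  · intro u v h
    by_contra hne
    simp [hne] at h
  · intro u v h
    exact ⟨v, by simpa using h, by simp [h]⟩
  · intro u w v _
    by_cases h : u = v
    · simp [h]
    · simp only [h, if_false]
      omega
  · intro u v w w' _ _ h1 h2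
    have h3 : u ≠ v := by
      rintro rfl
      simp at h1
    have h4 : w = v := by
      by_contra h
      simp [h, h3] at h1
    have h5 : w' = v := by
      by_contra h
      simp [h, h3] at h2
    rw [h4, h5]

theorem dist_top {V : Type} (u v : V) : (⊤ : SimpleGraph V).dist u v ≤ 1 := by
  by_cases h : u = v
  · subst h
    simp
  · exact (dist_eq_one_iff_adj.2 (by simpa using h)).le

theorem two_top (n : ℕ) : TwoConnected (⊤ : SimpleGraph (Fin (n + 3))) := by
  refine ⟨⟨⟨0, by omega⟩, ⟨1, by omega⟩, ⟨2, by omega⟩, ?_, ?_, ?_⟩, fun w => ?_⟩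
  · intro h
    have := congrArg Fin.val h
    simp at this
  · intro h
    have := congrArg Fin.val h
    simp at this
  · intro h
    have := congrArg Fin.val h
    simp at this
  · have hne : ∃ v : Fin (n + 3), v ≠ w := exists_ne w
    obtain ⟨v, hv⟩ := hne
    rw [connected_iff_exists_forall_reachable]
    refine ⟨⟨v, hv⟩, fun u => ?_⟩
    by_cases h : (⟨v, hv⟩ : {v // v ∈ ({w}ᶜ : Set _)}) = u
    · rw [h]
    · apply Adj.reachable
      show (⊤ : SimpleGraph _).Adj v u.1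
      rw [top_adj]
      exact fun h' => h (Subtype.ext h')

end Pool.Agent.Q321.GE
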